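import Pool.Agent.Work.MP_db9399_cg_helper83.A5c

/-!
# MP_db9399, SPW, block A5 (helper83): exactness
-/

set_option autoImplicit false

namespace Pool.Agent.Work.MP_db9399_cg.helper83

open Finset Classical Filter Topology
open Pool.Agent.Work.MP_db9399_all (nb)
open Pool.Agent.Work.MP_db9399_cg

universe u

section

variable {V : Type u} [Fintype V]

/-- neighbours in the sure part -/
noncomputable def Zn (Z : V → V → Prop) (v : V) : Finset V := univ.filter fun w => Z v w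

variable {G G1 : SimpleGraph V} {d f : ℕ} {b ρ κ η C : ℝ}
  {K : Finset V} {M : Bool → Finset V} {O Z : V → V → Prop}

theorem Coi.Zn_eq (q : Coi G G1 d b ρ κ K M O Z) (v : V) (X : Finset V) :
    (Zn Z v ∩ X).card = (sdz O Z true v ∩ X).card + (sdz O Z false v ∩ X).card := by
  rw [← card_union_of_disjoint]
  · congr 1
    ext w
    simp only [Zn, sdz, sd, mem_inter, mem_union, mem_filter, mem_univ, true_and, if_true]
    constructor
    · rintro ⟨h1, h2⟩
      by_cases ho : O v w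
      · left; exact ⟨⟨ho, h1⟩, h2⟩
      · right
        refine ⟨⟨?_, h1⟩, h2⟩
        have : O w v := by
          by_contra hcon
          exact ho ((q.hO v w (q.hZ' v w h1)).mpr hcon)
        simpa using this
    · rintro (⟨⟨_, h1⟩, h2⟩ | ⟨⟨_, h1⟩, h2⟩)
      · exact ⟨h1, h2⟩
      · exact ⟨h1, h2⟩
  · rw [Finset.disjoint_left]
    intro w h1 h2
    simp only [sdz, sd, mem_inter, mem_filter, mem_univ, true_and, if_true] at h1 h2
    have h3 : O w v := by simpa using h2.1.1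
    exact (q.hO v w (q.hO' v w h1.1.1)).mp h1.1.1 h3

theorem Coi.Zn_bd (q : Coi G G1 d b ρ κ K M O Z) (c : Ctx G G1 d f b ρ κ η C K M) (j : Fin 7)
    (v : V) : |((Zn Z v ∩ XX K M j).card : ℝ) - ∑ w ∈ nb G1 v ∩ XX K M j, th G d b ρ κ K v w| ≤
      2 * (η * (κ * d)) := by
  have h1 := abs_le.mp (q.tz j true v)
  have h2 := abs_le.mp (q.tz j false v)
  have h3 := c.s2
  rw [q.Zn_eq, Nat.cast_add, abs_le]
  constructor <;> linarith [h1.1, h1.2, h2.1, h2.2]

theorem Ctx.sth_hi (c : Ctx G G1 d f b ρ κ η C K M) (v : V) (A : Finset V) :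
    ∑ w ∈ A, th G d b ρ κ K v w ≤ 5 / 4 * κ * (A.card : ℝ) := by
  calc ∑ w ∈ A, th G d b ρ κ K v w ≤ ∑ w ∈ A, 5 / 4 * κ := sum_le_sum fun w _ => c.th_hi v w
    _ = 5 / 4 * κ * (A.card : ℝ) := by rw [sum_const, nsmul_eq_mul, mul_comm]

theorem Ctx.sth_lo (c : Ctx G G1 d f b ρ κ η C K M) (v : V) (A : Finset V) :
    2 / 3 * κ * (A.card : ℝ) ≤ ∑ w ∈ A, th G d b ρ κ K v w := by
  calc 2 / 3 * κ * (A.card : ℝ) = ∑ w ∈ A, 2 / 3 * κ := by rw [sum_const, nsmul_eq_mul, mul_comm]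
    _ ≤ _ := sum_le_sum fun w _ => c.th_lo v w

theorem Ctx.ηρ (c : Ctx G G1 d f b ρ κ η C K M) : 10000 * η ≤ ρ := by
  have h1 := c.e1
  have h2 := c.ρ0
  have h3 := c.ρ1
  have h4 := c.η0
  have h5 := c.C1
  have : η * 11000 ≤ ρ ^ 2 := by nlinarith
  nlinarith

theorem Ctx.ηb (c : Ctx G G1 d f b ρ κ η C K M) : 10000 * η ≤ b := by
  have h1 := c.e2
  have h4 := c.η0
  have h5 := c.C1
  nlinarith

theorem Ctx.f_eq (c : Ctx G G1 d f b ρ κ η C K M) : (2 * f : ℝ) = κ * d - ρ := by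
  have := c.hf
  linarith

theorem Coi.outK (q : Coi G G1 d b ρ κ K M O Z) (c : Ctx G G1 d f b ρ κ η C K M)
    (S : SimpleGraph V) (hS : ∀ v w, Z v w → S.Adj v w) (v : V) (hv : v ∉ K) :
    b / 2 * (2 * f) ≤ ((nb S v ∩ K).card : ℝ) := by
  have h1 := (abs_le.mp (q.Zn_bd c 1 v)).1
  have e1 : XX K M 1 = K := rfl
  rw [e1] at h1
  have h2 : ((Zn Z v ∩ K).card : ℝ) ≤ ((nb S v ∩ K).card : ℝ) := by
    have : Zn Z v ∩ K ⊆ nb S v ∩ K := by
      apply inter_subset_inter_right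
      intro w hw
      simp only [Zn, mem_filter, mem_univ, true_and] at hw
      exact mem_nb.mpr (hS v w hw)
    exact_mod_cast card_le_card this
  have h3 := c.sth_lo v (nb G1 v ∩ K)
  have h4 := (abs_le.mp (c.cardK v)).1
  rw [if_neg hv] at h4
  have h5 := c.s1
  have h6 := c.f_eq
  have hb := c.ηb
  have hb0 := c.b0
  have hk := c.k0
  have hd := c.dpos
  have hρ := c.ρ0
  have hη := c.η0
  rw [h6]
  have hcard : (b - η) * d ≤ ((nb G1 v ∩ K).card : ℝ) := by linarith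
  have hkd : 0 < κ * d := by positivity
  have h7 : 2 / 3 * κ * ((b - η) * d) ≤ 2 / 3 * κ * ((nb G1 v ∩ K).card : ℝ) := by gcongr
  have h8 : b / 2 * (κ * d - ρ) ≤ b / 2 * (κ * d) := by
    gcongr
    linarith
  have h9 : b / 2 * (κ * d) ≤ 2 / 3 * κ * ((b - η) * d) - 2 * (η * (κ * d)) := by
    have : 2 / 3 * κ * ((b - η) * d) - 2 * (η * (κ * d)) - b / 2 * (κ * d) =
      (b / 6 - 8 / 3 * η) * (κ * d) := by ring
    have h10 : 0 ≤ (b / 6 - 8 / 3 * η) * (κ * d) := by
      apply mul_nonneg _ hkd.le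
      linarith
    linarith
  linarith

theorem Coi.outO (q : Coi G G1 d b ρ κ K M O Z) (c : Ctx G G1 d f b ρ κ η C K M)
    (S : SimpleGraph V) (hS : ∀ v w, Z v w → S.Adj v w) (v : V) :
    (f : ℝ) ≤ ((nb S v \ K).card : ℝ) := by
  have h1 := (abs_le.mp (q.Zn_bd c 2 v)).1
  have e1 : XX K M 2 = Kᶜ := rfl
  rw [e1] at h1
  have h2 : ((Zn Z v ∩ Kᶜ).card : ℝ) ≤ ((nb S v \ K).card : ℝ) := by
    have : Zn Z v ∩ Kᶜ ⊆ nb S v \ K := by
      intro w hw
      rw [mem_inter, mem_compl] at hw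
      rw [Finset.mem_sdiff]
      refine ⟨?_, hw.2⟩
      have hw1 := hw.1
      simp only [Zn, mem_filter, mem_univ, true_and] at hw1
      exact mem_nb.mpr (hS v w hw1)
    exact_mod_cast card_le_card this
  have h3 := c.sth_lo v (nb G1 v ∩ Kᶜ)
  have h4 := (abs_le.mp (c.cardO v)).1
  have e2 : nb G1 v \ K = nb G1 v ∩ Kᶜ := by ext w; simp
  rw [e2] at h4
  have h5 := c.s1
  have h6 := c.f_eq
  have hb := c.b1
  have hb0 := c.b0
  have hk := c.k0
  have hd := c.dpos
  have hρ := c.ρ0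
  have hη := c.η0
  have hηs := c.ηs
  have hcard : (1 - b - η) * d ≤ ((nb G1 v ∩ Kᶜ).card : ℝ) := by linarith
  have hkd : 0 < κ * d := by positivity
  have h7 : 2 / 3 * κ * ((1 - b - η) * d) ≤ 2 / 3 * κ * ((nb G1 v ∩ Kᶜ).card : ℝ) := by gcongr
  have h9 : 1 / 2 * (κ * d) ≤ 2 / 3 * κ * ((1 - b - η) * d) - 2 * (η * (κ * d)) := by
    have : 2 / 3 * κ * ((1 - b - η) * d) - 2 * (η * (κ * d)) - 1 / 2 * (κ * d) =
      (1 / 6 - 2 / 3 * b - 8 / 3 * η) * (κ * d) := by ring
    have h10 : 0 ≤ (1 / 6 - 2 / 3 * b - 8 / 3 * η) * (κ * d) := by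
      apply mul_nonneg _ hkd.le
      linarith
    linarith
  linarith

theorem Coi.outM (q : Coi G G1 d b ρ κ K M O Z) (c : Ctx G G1 d f b ρ κ η C K M)
    (S : SimpleGraph V) (hS : ∀ v w, Z v w → S.Adj v w) (hdeg : ∀ v, (nb S v).card ≤ 2 * f + 1)
    (v : V) :
    ((nb S v ∩ (M true ∪ M false)).card : ℝ) ≤ 4 * ρ * (2 * f) := by
  have h1 := c.s1
  have h6 := c.f_eq
  have hk := c.k0
  have hd := c.dpos
  have hρ := c.ρ0
  have hρ1 := c.ρ1
  have hη := c.η0
  have hηs := c.ηs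
  have hηρ := c.ηρ
  have h5 := c.s5
  have hCη := c.Cη
  have hkd : 0 < κ * d := by positivity
  -- the part in `Z`
  have key : ∀ t : Bool, ((Zn Z v ∩ M t).card : ℝ) ≤ 5 / 4 * (ρ * (κ * d)) + 13 / 2 * (η * (κ * d)) := by
    intro t
    have e1 : ((Zn Z v ∩ M t).card : ℝ) = ((Zn Z v ∩ (M t ∩ K)).card : ℝ) +
        ((Zn Z v ∩ (M t \ K)).card : ℝ) := by
      rw [← Nat.cast_add, ← card_union_of_disjoint]
      · congr 2
        ext w
        simp only [mem_inter, mem_union, Finset.mem_sdiff]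
        tauto
      · rw [Finset.disjoint_left]
        intro w hw hw'
        simp only [mem_inter, Finset.mem_sdiff] at hw hw'
        exact hw'.2.2 hw.2.2
    have a1 : ((Zn Z v ∩ (M t ∩ K)).card : ℝ) ≤
        ∑ w ∈ nb G1 v ∩ (M t ∩ K), th G d b ρ κ K v w + 2 * (η * (κ * d)) := by
      cases t
      · have := (abs_le.mp (q.Zn_bd c 4 v)).2
        have e : XX K M 4 = M false ∩ K := rfl
        rw [e] at this
        linarith
      · have := (abs_le.mp (q.Zn_bd c 3 v)).2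
        have e : XX K M 3 = M true ∩ K := rfl
        rw [e] at this
        linarith
    have a2 : ((Zn Z v ∩ (M t \ K)).card : ℝ) ≤
        ∑ w ∈ nb G1 v ∩ (M t \ K), th G d b ρ κ K v w + 2 * (η * (κ * d)) := by
      cases t
      · have := (abs_le.mp (q.Zn_bd c 6 v)).2
        have e : XX K M 6 = M false \ K := rfl
        rw [e] at this
        linarith
      · have := (abs_le.mp (q.Zn_bd c 5 v)).2
        have e : XX K M 5 = M true \ K := rfl
        rw [e] at this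
        linarith
    have a3 := c.sth_hi v (nb G1 v ∩ (M t ∩ K))
    have a4 := c.sth_hi v (nb G1 v ∩ (M t \ K))
    have a5 : ((nb G1 v ∩ (M t ∩ K)).card : ℝ) ≤ ρ * b * d + η * d := by
      have h7 := (abs_le.mp (c.lab.m1 t v)).2
      have h8 : ((nb G1 v ∩ (M t ∩ K)).card : ℝ) ≤ ((nb G v ∩ M t ∩ K).card : ℝ) := by
        rw [inter_assoc]
        exact_mod_cast card_le_card (inter_subset_inter_right (c.nb_sub v))
      linarith
    have a6 : ((nb G1 v ∩ (M t \ K)).card : ℝ) ≤ ρ * (1 - b) * d + η * d := by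
      have h7 := (abs_le.mp (c.lab.m2 t v)).2
      have h8 : ((nb G1 v ∩ (M t \ K)).card : ℝ) ≤ (((nb G v ∩ M t) \ K).card : ℝ) := by
        have : nb G1 v ∩ (M t \ K) ⊆ (nb G v ∩ M t) \ K := by
          intro w hw
          simp only [mem_inter, Finset.mem_sdiff] at hw ⊢
          exact ⟨⟨c.nb_sub v hw.1, hw.2.1⟩, hw.2.2⟩
        exact_mod_cast card_le_card this
      linarith
    have a7 : 5 / 4 * κ * ((nb G1 v ∩ (M t ∩ K)).card : ℝ) ≤ 5 / 4 * κ * (ρ * b * d + η * d) := by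
      gcongr
    have a8 : 5 / 4 * κ * ((nb G1 v ∩ (M t \ K)).card : ℝ) ≤
        5 / 4 * κ * (ρ * (1 - b) * d + η * d) := by
      gcongr
    rw [e1]
    have e2 : 5 / 4 * κ * (ρ * b * d + η * d) + 5 / 4 * κ * (ρ * (1 - b) * d + η * d) =
      5 / 4 * (ρ * (κ * d)) + 5 / 2 * (η * (κ * d)) := by ring
    linarith
  -- the rest
  have hz : (nb S v).card ≥ (Zn Z v).card := by
    apply card_le_card
    intro w hw
    simp only [Zn, mem_filter, mem_univ, true_and] at hw
    exact mem_nb.mpr (hS v w hw)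
  have hzsub : Zn Z v ⊆ nb S v := by
    intro w hw
    simp only [Zn, mem_filter, mem_univ, true_and] at hw
    exact mem_nb.mpr (hS v w hw)
  have hrest : ((nb S v \ Zn Z v).card : ℝ) ≤ ρ * (κ * d) + 4 * (η * (κ * d)) := by
    have e1 : ((nb S v \ Zn Z v).card : ℝ) = (nb S v).card - (Zn Z v).card := by
      have := card_sdiff_add_card_eq_card hzsub
      rw [← this]
      push_cast
      ring
    rw [e1]
    have h7 : ((nb S v).card : ℝ) ≤ 2 * f + 1 := by exact_mod_cast hdeg v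
    have h8 := (abs_le.mp (q.Zn_bd c 0 v)).1
    have e2 : XX K M 0 = univ := rfl
    rw [e2, inter_univ, inter_univ] at h8
    have h9 := (abs_le.mp (c.sth v)).1
    rw [h6] at h7
    have e3 : (1 - ρ) * κ * d = κ * d - ρ * (κ * d) := by ring
    rw [e3] at h9
    linarith
  have hsub : nb S v ∩ (M true ∪ M false) ⊆
      (Zn Z v ∩ M true) ∪ (Zn Z v ∩ M false) ∪ (nb S v \ Zn Z v) := by
    intro w hw
    simp only [mem_inter, mem_union, Finset.mem_sdiff] at hw ⊢
    tauto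
  have hle : ((nb S v ∩ (M true ∪ M false)).card : ℝ) ≤
      ((Zn Z v ∩ M true).card : ℝ) + ((Zn Z v ∩ M false).card : ℝ) +
        ((nb S v \ Zn Z v).card : ℝ) := by
    have h7 := (card_le_card hsub).trans ((card_union_le _ _).trans
      (Nat.add_le_add_right (card_union_le _ _) _))
    exact_mod_cast h7
  have k1 := key true
  have k2 := key false
  rw [h6]
  have e4 : 4 * ρ * (κ * d - ρ) = 4 * (ρ * (κ * d)) - 4 * ρ ^ 2 := by ring
  rw [e4]
  have hρ2 : ρ ^ 2 ≤ 1 / 256 := by nlinarith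
  have h10 : 10000 * (η * (κ * d)) ≤ ρ * (κ * d) := by
    rw [← mul_assoc]
    gcongr
  linarith

end

theorem stmt_A5 : Stmt_A5.{u} := by
  intro a n2 ha ha1 hn2
  have hn2' : (16 : ℝ) ≤ n2 := by exact_mod_cast hn2
  have hρ0 : (0 : ℝ) < 1 / n2 := by positivity
  have hρ1 : (1 : ℝ) / n2 ≤ 1 / 16 := one_div_le_one_div_of_le (by norm_num) hn2'
  obtain ⟨C0, dA, hA⟩ := a2_gen.{u} (1 / 64) (by norm_num) le_rfl
  set C : ℝ := max C0 1 with hC
  have hC1 : 1 ≤ C := le_max_right _ _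
  set η : ℝ := min ((1 / (n2 : ℝ)) ^ 2) (1 / 64) / (1000 * (C + 10)) with hη
  have hden : 0 < 1000 * (C + 10) := by linarith
  have hη0 : 0 < η := by positivity
  have hη1 : η * (1000 * (C + 10)) = min ((1 / (n2 : ℝ)) ^ 2) (1 / 64) := by
    rw [hη]; field_simp
  have hηle : η ≤ 1 := by
    have h1 : η * 1 ≤ η * (1000 * (C + 10)) := by
      apply mul_le_mul_of_nonneg_left _ hη0.le
      linarith
    have h2 : min ((1 / (n2 : ℝ)) ^ 2) (1 / 64) ≤ 1 := by
      refine le_trans (min_le_right _ _) ?_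
      linarith
    linarith
  obtain ⟨d1, hd1⟩ := small_facts a η ha ha1 hη0 hηle
  refine ⟨max dA d1, 8, ?_⟩
  intro V _ G G1 d f κ K M hd reg lab hG1 hf k1 k2
  obtain ⟨g1, g2, g3, g4, g5, g6, g7, g8, g9⟩ := hd1 d κ (le_trans (le_max_right _ _) hd) k1 k2
  obtain ⟨w1, w2, w3⟩ := hA G d (1 / n2) K M (le_trans (le_max_left _ _) hd) reg (Lab0.of lab)
  have c : Ctx G G1 d f (1 / 64) (1 / n2) κ η C K M :=
    { reg := reg
      lab := Lab0.of lab
      hG1 := hG1
      hf := by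
        rw [← hf]
        congr 1
        field_simp
      b0 := by norm_num
      b1 := le_rfl
      ρ0 := hρ0
      ρ1 := hρ1
      d3 := g1
      lg := g2
      k0 := g3
      kη := g4
      s1 := g5
      s2 := g6
      s3 := g7
      s4 := g8
      s5 := g9
      η0 := hη0
      C1 := hC1
      e1 := by rw [hη1]; exact min_le_left _ _
      e2 := by rw [hη1]; exact min_le_right _ _
      wb := w2
      ws := fun v => le_trans (w3 v) (by
        apply mul_le_mul_of_nonneg_right (le_max_left _ _)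
        positivity) }
  refine ⟨th G d (1 / 64) (1 / n2) κ K, xx G d (1 / 64) (1 / n2) κ K,
    hh G d (1 / 64) (1 / n2) κ K M, ccf G G1 d (1 / 64) (1 / n2) κ K, c.edat a k1 k2, ?_⟩
  intro O Z hO hO' hZ hZ' hC'
  have q : Coi G G1 d (1 / 64) (1 / n2) κ K M O Z := ⟨hO, hO', hZ, hZ', hC'⟩
  obtain ⟨S, hS1, hS2, hS3, hS4⟩ := q.round c
  have hup : ∀ v, (nb S v).card ≤ 2 * f + 1 := by
    intro v
    rcases hS4 v with h | h <;> omega
  refine ⟨S, hS1, hS2, ?_, hup, ?_, ?_, ?_, ?_⟩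
  · intro v
    rcases hS4 v with h | h <;> omega
  · intro v hv
    rw [mem_union, not_or] at hv
    exact hS3 v hv.1 hv.2
  · intro v
    have h := q.outM c S hS2 hup v
    calc _ ≤ _ := h
      _ = _ := by ring
  · intro v hv
    have h := q.outK c S hS2 v hv
    calc (2 * f : ℝ) / 128 = 1 / 64 / 2 * (2 * f) := by ring
      _ ≤ _ := h
  · exact q.outO c S hS2

end Pool.Agent.Work.MP_db9399_cg.helper83
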