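import Pool.Agent.Work.MP_db9399_cg.Interface2

/-!
# MP_db9399, SPW, block A2 (helper83): the weights of the pairs
-/

set_option autoImplicit false

namespace Pool.Agent.Work.MP_db9399_cg.helper83

open Finset Classical Filter Topology
open Pool.Agent.Work.MP_db9399_all (nb)
open Pool.Agent.Work.MP_db9399_cg

universe u

section A2

variable {V : Type u} [Fintype V]

/-- the part of the labels used here -/
structure Lab0 (G : SimpleGraph V) (d : ℕ) (b ρ' : ℝ) (K : Finset V) (M : Bool → Finset V) :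
    Prop where
  dis : Disjoint (M true) (M false)
  k : ∀ v, |LK G d b K v| ≤ √d * Real.log d
  q : ∀ v, |∑ x ∈ nb G v, io K b x * LK G d b K x| ≤ d * Real.log d ^ 3
  m1 : ∀ s v, |((nb G v ∩ M s ∩ K).card : ℝ) - ρ' * b * d| ≤ √d * Real.log d
  m2 : ∀ s v, |(((nb G v ∩ M s) \ K).card : ℝ) - ρ' * (1 - b) * d| ≤ √d * Real.log d

theorem Lab0.of {G : SimpleGraph V} {d : ℕ} {a b ρ' : ℝ} {K : Finset V} {M : Bool → Finset V}
    (h : Lab G d a b ρ' K M) : Lab0 G d b ρ' K M := ⟨h.dis, h.k, h.q, h.m1, h.m2⟩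

theorem wpi_symm (G : SimpleGraph V) (d : ℕ) (b : ℝ) (K : Finset V) (v w : V) :
    wpi G d b K v w = wpi G d b K w v := by
  unfold wpi
  by_cases hv : v ∈ K <;> by_cases hw : w ∈ K <;> simp [hv, hw]
  left
  ring

theorem wpi_K (G : SimpleGraph V) (d : ℕ) (b : ℝ) (K : Finset V) (v w : V)
    (hv : v ∈ K) :
    wpi G d b K v w = (1 - b - io K b w) * (1 / (1 - b) + 1 / (1 - b) ^ 2 * (LK G d b K v / d)) := by
  unfold wpi io
  by_cases hw : w ∈ K <;> simp [hv, hw]

theorem wpi_O (G : SimpleGraph V) (d : ℕ) (b : ℝ) (hb : b < 1) (K : Finset V) (v w : V)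
    (hv : v ∉ K) :
    wpi G d b K v w = 1 + io K b w * (b / (1 - b) ^ 2)
      + (1 / (1 - b) ^ 3) * (io K b w * (LK G d b K w / d))
      - (b / (1 - b) ^ 3) * (LK G d b K v / d) * (1 - b - io K b w) := by
  have h1 : (1 - b) ≠ 0 := by linarith
  unfold wpi io
  by_cases hw : w ∈ K
  · simp only [hv, hw, false_and, if_false, if_true]
    field_simp
    ring
  · simp only [hv, hw, false_and, if_false]
    field_simp
    ring

theorem sum_io (G : SimpleGraph V) (d : ℕ) (b : ℝ) (K : Finset V) (v : V)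
    (hd : (nb G v).card = d) : ∑ w ∈ nb G v, io K b w = LK G d b K v := by
  unfold io LK
  rw [sum_sub_distrib, sum_const, nsmul_eq_mul, hd, ← sum_filter, sum_const, nsmul_eq_mul, mul_one]
  have : (nb G v).filter (fun a => a ∈ K) = nb G v ∩ K := by
    ext x; simp
  rw [this]
  ring

theorem log_sqrt_small (c : ℝ) (hc : 0 < c) : ∃ d0 : ℕ, ∀ d : ℕ, d0 ≤ d →
    √(d : ℝ) * Real.log d ≤ c * d := by
  have h1 : Tendsto (fun x : ℝ => Real.log x / x ^ (1 / 2 : ℝ)) atTop (𝓝 0) :=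
    (isLittleO_log_rpow_atTop (by norm_num)).tendsto_div_nhds_zero
  have h2 := (h1.comp tendsto_natCast_atTop_atTop).eventually (gt_mem_nhds hc)
  rw [eventually_atTop] at h2
  obtain ⟨d0, h0⟩ := h2
  refine ⟨max d0 1, fun d hd => ?_⟩
  have hd1 : (1 : ℝ) ≤ d := by exact_mod_cast le_trans (le_max_right _ _) hd
  have h3 := h0 d (le_trans (le_max_left _ _) hd)
  simp only [Function.comp] at h3
  rw [← Real.sqrt_eq_rpow] at h3
  have hs : 0 < √(d : ℝ) := Real.sqrt_pos.mpr (by linarith)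
  rw [div_lt_iff₀ hs] at h3
  calc √(d : ℝ) * Real.log d ≤ √(d : ℝ) * (c * √(d : ℝ)) := by
        apply mul_le_mul_of_nonneg_left h3.le hs.le
    _ = c * (√(d : ℝ) * √(d : ℝ)) := by ring
    _ = c * d := by rw [Real.mul_self_sqrt (by linarith)]

theorem a2_gen (b : ℝ) (hb : 0 < b) (hb2 : b ≤ 1 / 64) : ∃ (C : ℝ) (d0 : ℕ),
    ∀ {V : Type u} [Fintype V] (G : SimpleGraph V) (d : ℕ) (ρ' : ℝ) (K : Finset V)
    (M : Bool → Finset V), d0 ≤ d → Reg G d → Lab0 G d b ρ' K M →
    (∀ v w, wpi G d b K v w = wpi G d b K w v) ∧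
    (∀ v w, ¬ (v ∈ K ∧ w ∈ K) → 3 / 4 ≤ wpi G d b K v w ∧ wpi G d b K v w ≤ 5 / 4) ∧
    ∀ v, |∑ w ∈ nb G v, wpi G d b K v w - d| ≤ C * Real.log d ^ 3 := by
  obtain ⟨d1, hd1⟩ := log_sqrt_small (1 / 100) (by norm_num)
  refine ⟨2, max d1 3, ?_⟩
  intro V _ G d ρ' K M hd reg lab
  have hdd : d1 ≤ d := le_trans (le_max_left _ _) hd
  have hd3 : (3 : ℝ) ≤ d := by exact_mod_cast le_trans (le_max_right _ _) hd
  have hdpos : (0 : ℝ) < d := by linarith
  have hlog : 1 ≤ Real.log d := by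
    rw [Real.le_log_iff_exp_le hdpos]
    have := Real.exp_one_lt_d9
    linarith
  have hsm := hd1 d hdd
  have hX : ∀ v, |LK G d b K v / d| ≤ 1 / 100 := by
    intro v
    rw [abs_div, abs_of_pos hdpos, div_le_iff₀ hdpos]
    exact le_trans (lab.k v) hsm
  have h1b : (63 : ℝ) / 64 ≤ 1 - b := by linarith
  have h1b' : 1 - b ≤ 1 := by linarith
  have h1bp : 0 < 1 - b := by linarith
  -- bounds of the constants
  have i1 : 1 ≤ 1 / (1 - b) := by rw [le_div_iff₀ h1bp]; linarith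
  have i1' : 1 / (1 - b) ≤ 64 / 63 := by
    rw [div_le_div_iff₀ h1bp (by norm_num)]; linarith
  have e2 : 1 / (1 - b) ^ 2 = (1 / (1 - b)) * (1 / (1 - b)) := by
    field_simp
  have e3 : 1 / (1 - b) ^ 3 = (1 / (1 - b)) * (1 / (1 - b)) * (1 / (1 - b)) := by
    field_simp
  have i2 : 1 ≤ 1 / (1 - b) ^ 2 := by rw [e2]; nlinarith
  have i2' : 1 / (1 - b) ^ 2 ≤ 11 / 10 := by rw [e2]; nlinarith
  have i3 : 1 ≤ 1 / (1 - b) ^ 3 := by rw [e3, ← e2]; nlinarith
  have i3' : 1 / (1 - b) ^ 3 ≤ 11 / 10 := by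
    rw [e3]
    calc (1 / (1 - b)) * (1 / (1 - b)) * (1 / (1 - b)) ≤ (64 / 63) * (64 / 63) * (64 / 63) := by
          gcongr
      _ ≤ 11 / 10 := by norm_num
  have i4 : b / (1 - b) ^ 3 = b * (1 / (1 - b) ^ 3) := by ring
  have i4' : 0 ≤ b / (1 - b) ^ 3 := by positivity
  have i4'' : b / (1 - b) ^ 3 ≤ 1 / 50 := by
    rw [i4]; nlinarith
  have i5 : (1 - 2 * b) / (1 - b) ^ 2 = 1 - b ^ 2 * (1 / (1 - b) ^ 2) := by
    field_simp
    ring
  have i5' : 0 ≤ b ^ 2 * (1 / (1 - b) ^ 2) := by positivity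
  have i5'' : b ^ 2 * (1 / (1 - b) ^ 2) ≤ 1 / 1000 := by
    have : b ^ 2 ≤ (1 / 64) ^ 2 := by gcongr
    calc b ^ 2 * (1 / (1 - b) ^ 2) ≤ (1 / 64) ^ 2 * (11 / 10) := by gcongr
      _ ≤ 1 / 1000 := by norm_num
  refine ⟨wpi_symm G d b K, ?_, ?_⟩
  · intro v w hvw
    have hXv := abs_le.mp (hX v)
    have hXw := abs_le.mp (hX w)
    unfold wpi
    rw [if_neg hvw]
    by_cases hv : v ∈ K
    · rw [if_pos hv]
      constructor <;> nlinarith
    · rw [if_neg hv]
      by_cases hw : w ∈ K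
      · rw [if_pos hw]
        constructor <;> nlinarith
      · rw [if_neg hw, i5]
        constructor <;> nlinarith
  · intro v
    have hq := lab.q v
    have hk := lab.k v
    have hsq : (LK G d b K v / d) * LK G d b K v ≤ Real.log d ^ 2 := by
      have h1 : LK G d b K v ^ 2 ≤ (√(d : ℝ) * Real.log d) ^ 2 := sq_le_sq' (by
        have := (abs_le.mp hk).1; linarith) (abs_le.mp hk).2
      rw [mul_pow, Real.sq_sqrt hdpos.le] at h1
      rw [div_mul_eq_mul_div, div_le_iff₀ hdpos]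
      nlinarith
    have hsq0 : 0 ≤ (LK G d b K v / d) * LK G d b K v := by
      rw [div_mul_eq_mul_div]
      exact div_nonneg (mul_self_nonneg _) hdpos.le
    have hl23 : Real.log d ^ 2 ≤ Real.log d ^ 3 := pow_le_pow_right₀ hlog (by norm_num)
    have hl0 : 0 ≤ Real.log d ^ 3 := by positivity
    have hcd : (LK G d b K v / d) * d = LK G d b K v := by field_simp
    have hsio := sum_io G d b K v (reg v)
    have hcard : ((nb G v).card : ℝ) = d := by exact_mod_cast reg v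
    by_cases hv : v ∈ K
    · have hs : ∑ w ∈ nb G v, wpi G d b K v w =
          d - 1 / (1 - b) ^ 2 * ((LK G d b K v / d) * LK G d b K v) := by
        rw [sum_congr rfl fun w _ => wpi_K G d b K v w hv, ← sum_mul, sum_sub_distrib,
          sum_const, nsmul_eq_mul, hsio, hcard]
        have hne : (1 - b) ≠ 0 := h1bp.ne'
        have hdne : (d : ℝ) ≠ 0 := hdpos.ne'
        field_simp
        ring
      rw [hs]
      have : (d : ℝ) - 1 / (1 - b) ^ 2 * ((LK G d b K v / d) * LK G d b K v) - d =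
        - (1 / (1 - b) ^ 2 * ((LK G d b K v / d) * LK G d b K v)) := by ring
      rw [this, abs_neg, abs_of_nonneg (by positivity)]
      calc 1 / (1 - b) ^ 2 * ((LK G d b K v / d) * LK G d b K v)
          ≤ (11 / 10) * (Real.log d ^ 2) := by gcongr
        _ ≤ 2 * Real.log d ^ 3 := by nlinarith
    · have hs : ∑ w ∈ nb G v, wpi G d b K v w =
          d + 1 / (1 - b) ^ 3 * ((∑ w ∈ nb G v, io K b w * LK G d b K w) / d) +
            b / (1 - b) ^ 3 * ((LK G d b K v / d) * LK G d b K v) := by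
        rw [sum_congr rfl fun w _ => wpi_O G d b (by linarith) K v w hv, sum_sub_distrib,
          sum_add_distrib, sum_add_distrib, ← sum_mul, ← mul_sum, ← mul_sum, sum_sub_distrib,
          sum_const, sum_const, nsmul_eq_mul, nsmul_eq_mul, hsio, hcard]
        have h9 : ∑ w ∈ nb G v, io K b w * (LK G d b K w / d) =
            (∑ w ∈ nb G v, io K b w * LK G d b K w) / d := by
          rw [sum_div]
          exact sum_congr rfl fun w _ => by ring
        rw [h9]
        have hne : (1 - b) ≠ 0 := h1bp.ne'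
        have hdne : (d : ℝ) ≠ 0 := hdpos.ne'
        generalize ∑ w ∈ nb G v, io K b w * LK G d b K w = Q
        generalize LK G d b K v = L
        field_simp
        ring
      rw [hs]
      have hQ : |(∑ w ∈ nb G v, io K b w * LK G d b K w) / d| ≤ Real.log d ^ 3 := by
        rw [abs_div, abs_of_pos hdpos, div_le_iff₀ hdpos]
        linarith
      generalize (∑ w ∈ nb G v, io K b w * LK G d b K w) / d = Q at hQ ⊢
      generalize (LK G d b K v / d) * LK G d b K v = X at hsq hsq0 ⊢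
      have hQ' := abs_le.mp hQ
      have t1 : |1 / (1 - b) ^ 3 * Q| ≤ (11 / 10) * Real.log d ^ 3 := by
        rw [abs_mul, abs_of_nonneg (by linarith)]
        gcongr
      have t2 : |b / (1 - b) ^ 3 * X| ≤ (1 / 50) * Real.log d ^ 3 := by
        rw [abs_mul, abs_of_nonneg i4', abs_of_nonneg hsq0]
        gcongr
        linarith
      have : (d : ℝ) + 1 / (1 - b) ^ 3 * Q + b / (1 - b) ^ 3 * X - d =
        1 / (1 - b) ^ 3 * Q + b / (1 - b) ^ 3 * X := by ring
      rw [this]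
      calc |1 / (1 - b) ^ 3 * Q + b / (1 - b) ^ 3 * X|
          ≤ |1 / (1 - b) ^ 3 * Q| + |b / (1 - b) ^ 3 * X| := abs_add_le _ _
        _ ≤ (11 / 10) * Real.log d ^ 3 + (1 / 50) * Real.log d ^ 3 := add_le_add t1 t2
        _ ≤ 2 * Real.log d ^ 3 := by nlinarith

theorem stmt_A2 : Stmt_A2.{u} := by
  obtain ⟨C, d0, h⟩ := a2_gen.{u} (1 / 64) (by norm_num) le_rfl
  exact ⟨C, d0, fun G d a ρ' K M hd reg lab => h G d ρ' K M hd reg (Lab0.of lab)⟩

end A2

end Pool.Agent.Work.MP_db9399_cg.helper83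

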