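import Pool.Agent.Work.MP_db9399_cg_helper83.A5

/-!
# MP_db9399, block A5 with the count of the edges outside the sure part (helper83)
-/

set_option autoImplicit false

namespace Pool.Agent.Work.MP_db9399_cg.helper83

open Finset Classical Filter Topology
open Pool.Agent.Work.MP_db9399_all (nb)
open Pool.Agent.Work.MP_db9399_cg

universe u

/-- `Stmt_A5` with one more conclusion: few edges of `S` are not in `Z`. -/
def Stmt_A5N : Prop :=
  ∀ (a : ℝ) (n2 : ℕ), 0 < a → a ≤ 1 / 100 → 16 ≤ n2 → ∃ (d0 m : ℕ), ∀ {V : Type u} [Fintype V]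
    (G G1 : SimpleGraph V) (d f : ℕ) (κ : ℝ) (K : Finset V) (M : Bool → Finset V), d0 ≤ d →
    Reg G d → Lab G d a (1 / 64) (1 / n2) K M →
    (∀ v w, G1.Adj v w ↔ G.Adj v w ∧ ¬ (v ∈ K ∧ w ∈ K)) →
    (f : ℝ) + 1 / (2 * n2) = κ * d / 2 → (d : ℝ) ^ (-a) ≤ κ → κ ≤ (d : ℝ) ^ (-(a / 3)) →
    ∃ (θ x1 : V → V → ℝ) (h : Fin m → V → V → ℝ) (cc : V → ℝ), Edat G G1 d a κ θ x1 h cc ∧
      ∀ O Z : V → V → Prop, (∀ v w, G1.Adj v w → (O v w ↔ ¬ O w v)) → (∀ v w, O v w → G1.Adj v w) →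
        (∀ v w, Z v w → Z w v) → (∀ v w, Z v w → G1.Adj v w) →
        (∀ v, CoinV G1 d κ θ x1 h cc O Z v) →
        ∃ S : SimpleGraph V, S ≤ G1 ∧ (∀ v w, Z v w → S.Adj v w) ∧
          (∀ v, 2 * f ≤ (nb S v).card) ∧ (∀ v, (nb S v).card ≤ 2 * f + 1) ∧
          (∀ v, v ∉ M true ∪ M false → (nb S v).card = 2 * f) ∧
          (∀ v, ((nb S v ∩ (M true ∪ M false)).card : ℝ) ≤ 4 / n2 * (2 * f)) ∧
          (∀ v, v ∉ K → (2 * f : ℝ) / 128 ≤ ((nb S v ∩ K).card : ℝ)) ∧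
          (∀ v, (f : ℝ) ≤ ((nb S v \ K).card : ℝ)) ∧
          ∀ v, ((univ.filter fun w => S.Adj v w ∧ ¬ Z v w).card : ℝ) ≤ 2 / n2 * (2 * f)

section

variable {V : Type u} [Fintype V]

variable {G G1 : SimpleGraph V} {d f : ℕ} {b ρ κ η C : ℝ}
  {K : Finset V} {M : Bool → Finset V} {O Z : V → V → Prop}

theorem Coi.outZ (q : Coi G G1 d b ρ κ K M O Z) (c : Ctx G G1 d f b ρ κ η C K M)
    (S : SimpleGraph V) (hS : ∀ v w, Z v w → S.Adj v w) (hdeg : ∀ v, (nb S v).card ≤ 2 * f + 1)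
    (v : V) :
    ((univ.filter fun w => S.Adj v w ∧ ¬ Z v w).card : ℝ) ≤ 2 * ρ * (2 * f) := by
  have h1 := c.s1
  have h6 := c.f_eq
  have hk := c.k0
  have hd := c.dpos
  have hρ := c.ρ0
  have hρ1 := c.ρ1
  have hη := c.η0
  have hηs := c.ηs
  have hηρ := c.ηρ
  have h5 := c.s5
  have hCη := c.Cη
  have hkd : 0 < κ * d := by positivity
  have hzsub : Zn Z v ⊆ nb S v := by
    intro w hw
    simp only [Zn, mem_filter, mem_univ, true_and] at hw
    exact mem_nb.mpr (hS v w hw)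
  have hset : (univ.filter fun w => S.Adj v w ∧ ¬ Z v w) = nb S v \ Zn Z v := by
    ext w
    simp only [Zn, mem_filter, mem_univ, true_and, Finset.mem_sdiff, mem_nb]
  have hrest : ((nb S v \ Zn Z v).card : ℝ) ≤ ρ * (κ * d) + 4 * (η * (κ * d)) := by
    have e1 : ((nb S v \ Zn Z v).card : ℝ) = (nb S v).card - (Zn Z v).card := by
      have := card_sdiff_add_card_eq_card hzsub
      rw [← this]
      push_cast
      ring
    rw [e1]
    have h7 : ((nb S v).card : ℝ) ≤ 2 * f + 1 := by exact_mod_cast hdeg v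
    have h8 := (abs_le.mp (q.Zn_bd c 0 v)).1
    have e2 : XX K M 0 = univ := rfl
    rw [e2, inter_univ, inter_univ] at h8
    have h9 := (abs_le.mp (c.sth v)).1
    rw [h6] at h7
    have e3 : (1 - ρ) * κ * d = κ * d - ρ * (κ * d) := by ring
    rw [e3] at h9
    linarith
  rw [hset, h6]
  have e4 : 2 * ρ * (κ * d - ρ) = 2 * (ρ * (κ * d)) - 2 * ρ ^ 2 := by ring
  rw [e4]
  have hρ2 : ρ ^ 2 ≤ 1 / 256 := by nlinarith
  have h10 : 10000 * (η * (κ * d)) ≤ ρ * (κ * d) := by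
    rw [← mul_assoc]
    gcongr
  linarith

end

theorem stmt_A5N : Stmt_A5N.{u} := by
  intro a n2 ha ha1 hn2
  have hn2' : (16 : ℝ) ≤ n2 := by exact_mod_cast hn2
  have hρ0 : (0 : ℝ) < 1 / n2 := by positivity
  have hρ1 : (1 : ℝ) / n2 ≤ 1 / 16 := one_div_le_one_div_of_le (by norm_num) hn2'
  obtain ⟨C0, dA, hA⟩ := a2_gen.{u} (1 / 64) (by norm_num) le_rfl
  set C : ℝ := max C0 1 with hC
  have hC1 : 1 ≤ C := le_max_right _ _
  set η : ℝ := min ((1 / (n2 : ℝ)) ^ 2) (1 / 64) / (1000 * (C + 10)) with hη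
  have hden : 0 < 1000 * (C + 10) := by linarith
  have hη0 : 0 < η := by positivity
  have hη1 : η * (1000 * (C + 10)) = min ((1 / (n2 : ℝ)) ^ 2) (1 / 64) := by
    rw [hη]; field_simp
  have hηle : η ≤ 1 := by
    have h1 : η * 1 ≤ η * (1000 * (C + 10)) := by
      apply mul_le_mul_of_nonneg_left _ hη0.le
      linarith
    have h2 : min ((1 / (n2 : ℝ)) ^ 2) (1 / 64) ≤ 1 := by
      refine le_trans (min_le_right _ _) ?_
      linarith
    linarith
  obtain ⟨d1, hd1⟩ := small_facts a η ha ha1 hη0 hηle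
  refine ⟨max dA d1, 8, ?_⟩
  intro V _ G G1 d f κ K M hd reg lab hG1 hf k1 k2
  obtain ⟨g1, g2, g3, g4, g5, g6, g7, g8, g9⟩ := hd1 d κ (le_trans (le_max_right _ _) hd) k1 k2
  obtain ⟨w1, w2, w3⟩ := hA G d (1 / n2) K M (le_trans (le_max_left _ _) hd) reg (Lab0.of lab)
  have c : Ctx G G1 d f (1 / 64) (1 / n2) κ η C K M :=
    { reg := reg
      lab := Lab0.of lab
      hG1 := hG1
      hf := by
        rw [← hf]
        congr 1
        field_simp
      b0 := by norm_num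
      b1 := le_rfl
      ρ0 := hρ0
      ρ1 := hρ1
      d3 := g1
      lg := g2
      k0 := g3
      kη := g4
      s1 := g5
      s2 := g6
      s3 := g7
      s4 := g8
      s5 := g9
      η0 := hη0
      C1 := hC1
      e1 := by rw [hη1]; exact min_le_left _ _
      e2 := by rw [hη1]; exact min_le_right _ _
      wb := w2
      ws := fun v => le_trans (w3 v) (by
        apply mul_le_mul_of_nonneg_right (le_max_left _ _)
        positivity) }
  refine ⟨th G d (1 / 64) (1 / n2) κ K, xx G d (1 / 64) (1 / n2) κ K,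
    hh G d (1 / 64) (1 / n2) κ K M, ccf G G1 d (1 / 64) (1 / n2) κ K, c.edat a k1 k2, ?_⟩
  intro O Z hO hO' hZ hZ' hC'
  have q : Coi G G1 d (1 / 64) (1 / n2) κ K M O Z := ⟨hO, hO', hZ, hZ', hC'⟩
  obtain ⟨S, hS1, hS2, hS3, hS4⟩ := q.round c
  have hup : ∀ v, (nb S v).card ≤ 2 * f + 1 := by
    intro v
    rcases hS4 v with h | h <;> omega
  refine ⟨S, hS1, hS2, ?_, hup, ?_, ?_, ?_, ?_, ?_⟩
  · intro v
    rcases hS4 v with h | h <;> omega
  · intro v hv
    rw [mem_union, not_or] at hv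
    exact hS3 v hv.1 hv.2
  · intro v
    have h := q.outM c S hS2 hup v
    calc _ ≤ _ := h
      _ = _ := by ring
  · intro v hv
    have h := q.outK c S hS2 v hv
    calc (2 * f : ℝ) / 128 = 1 / 64 / 2 * (2 * f) := by ring
      _ ≤ _ := h
  · exact q.outO c S hS2
  · intro v
    have h := q.outZ c S hS2 hup v
    calc _ ≤ _ := h
      _ = _ := by ring

end Pool.Agent.Work.MP_db9399_cg.helper83
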