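import Pool.Agent.Work.MP_db9399_cg_helper83.A2

/-!
# MP_db9399, SPW, block A5 (helper83), part 1: the data and simple facts
-/

set_option autoImplicit false

namespace Pool.Agent.Work.MP_db9399_cg.helper83

open Finset Classical Filter Topology
open Pool.Agent.Work.MP_db9399_all (nb)
open Pool.Agent.Work.MP_db9399_cg

universe u

theorem small_facts (a η : ℝ) (ha : 0 < a) (ha1 : a ≤ 1 / 100) (hη : 0 < η) (hη1 : η ≤ 1) :
    ∃ d0 : ℕ, ∀ (d : ℕ) (κ : ℝ), d0 ≤ d →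
    (d : ℝ) ^ (-a) ≤ κ → κ ≤ (d : ℝ) ^ (-(a / 3)) →
    3 ≤ d ∧ 1 ≤ Real.log d ∧ 0 < κ ∧ κ ≤ η ∧ √(d : ℝ) * Real.log d ≤ η * d ∧
      √(κ * d) * Real.log d ≤ η * (κ * d) ∧ κ * Real.log d ^ 3 ≤ η ∧
      √κ * Real.log d ^ 2 ≤ η ∧ 1 ≤ η * (κ * d) := by
  have hlp : ∀ (n : ℕ) (r c : ℝ), 0 < r → 0 < c →
      ∀ᶠ x : ℝ in atTop, Real.log x ^ n ≤ c * x ^ r := by
    intro n r c hr hc
    have h := isLittleO_log_rpow_rpow_atTop (n : ℝ) hr
    have h2 := h.def hc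
    filter_upwards [h2, eventually_ge_atTop 1] with x hx hx1
    simp only [Real.norm_eq_abs] at hx
    rw [Real.rpow_natCast] at hx
    rw [abs_of_nonneg (by positivity : (0 : ℝ) ≤ x ^ r)] at hx
    exact le_trans (le_abs_self _) hx
  have h1 : ∀ᶠ x : ℝ in atTop, Real.log x ^ 2 ≤ η ^ 2 * x ^ (1 / 2 : ℝ) :=
    hlp 2 (1 / 2) (η ^ 2) (by norm_num) (by positivity)
  have h1' : ∀ᶠ x : ℝ in atTop, Real.log x ^ 7 ≤ 1 * x ^ (a / 3) :=
    hlp 7 (a / 3) 1 (by positivity) (by norm_num)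
  have h2 : ∀ᶠ x : ℝ in atTop, 1 / η ≤ Real.log x :=
    Real.tendsto_log_atTop.eventually (eventually_ge_atTop _)
  have h3 := (tendsto_natCast_atTop_atTop (R := ℝ)).eventually ((h1.and h2).and h1')
  rw [eventually_atTop] at h3
  obtain ⟨d0, h0⟩ := h3
  refine ⟨max d0 3, fun d κ hd hk1 hk2' => ?_⟩
  obtain ⟨⟨g1, g2⟩, g3⟩ := h0 d (le_trans (le_max_left _ _) hd)
  have hd3 : 3 ≤ d := le_trans (le_max_right _ _) hd
  have hd3' : (3 : ℝ) ≤ d := by exact_mod_cast hd3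
  have hdpos : (0 : ℝ) < d := by linarith
  set L := Real.log d with hL
  have hL1 : 1 ≤ L := le_trans (by rw [le_div_iff₀ hη]; linarith) g2
  have hL0 : 0 < L := by linarith
  have hLη : 1 / L ≤ η := by
    rw [div_le_iff₀ hL0]
    rw [div_le_iff₀ hη] at g2
    linarith
  have hk0 : 0 < κ := lt_of_lt_of_le (by positivity) hk1
  have hk2 : κ ≤ 1 / L ^ 7 := by
    refine le_trans hk2' ?_
    rw [Real.rpow_neg hdpos.le, ← one_div]
    apply one_div_le_one_div_of_le (by positivity)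
    linarith
  have hpow : ∀ n : ℕ, 1 ≤ n → 1 / L ^ n ≤ η := fun n hn => by
    refine le_trans ?_ hLη
    apply one_div_le_one_div_of_le hL0
    calc L = L ^ 1 := (pow_one L).symm
      _ ≤ L ^ n := pow_le_pow_right₀ hL1 hn
  -- κ d large
  have hkdd : (d : ℝ) ^ (1 / 2 : ℝ) ≤ κ * d := by
    calc (d : ℝ) ^ (1 / 2 : ℝ) ≤ (d : ℝ) ^ (-a + 1) := by
          apply Real.rpow_le_rpow_of_exponent_le (by linarith)
          linarith
      _ = (d : ℝ) ^ (-a) * d := by rw [Real.rpow_add hdpos, Real.rpow_one]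
      _ ≤ κ * d := by gcongr
  have hkd : L ^ 2 ≤ η ^ 2 * (κ * d) := by
    calc L ^ 2 ≤ η ^ 2 * (d : ℝ) ^ (1 / 2 : ℝ) := g1
      _ ≤ η ^ 2 * (κ * d) := by gcongr
  have hkd0 : 0 < κ * d := by positivity
  have hk1' : κ ≤ 1 := le_trans hk2 (by
    rw [div_le_iff₀ (by positivity), one_mul]
    exact one_le_pow₀ hL1)
  refine ⟨hd3, hL1, hk0, le_trans hk2 (hpow 7 (by norm_num)), ?_, ?_, ?_, ?_, ?_⟩
  · -- sqrt d * L ≤ η d
    have hL2 : L ^ 2 ≤ η ^ 2 * d := by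
      calc L ^ 2 ≤ η ^ 2 * (κ * d) := hkd
        _ ≤ η ^ 2 * (1 * d) := by gcongr
        _ = η ^ 2 * d := by ring
    have hL' : L ≤ η * √(d : ℝ) := by
      apply (pow_le_pow_iff_left₀ hL0.le (by positivity) two_ne_zero).mp
      rw [mul_pow, Real.sq_sqrt hdpos.le]
      exact hL2
    calc √(d : ℝ) * L ≤ √(d : ℝ) * (η * √(d : ℝ)) := by gcongr
      _ = η * (√(d : ℝ) * √(d : ℝ)) := by ring
      _ = η * d := by rw [Real.mul_self_sqrt hdpos.le]
  · have hL' : L ≤ η * √(κ * d) := by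
      apply (pow_le_pow_iff_left₀ hL0.le (by positivity) two_ne_zero).mp
      rw [mul_pow, Real.sq_sqrt hkd0.le]
      exact hkd
    calc √(κ * d) * L ≤ √(κ * d) * (η * √(κ * d)) := by gcongr
      _ = η * (√(κ * d) * √(κ * d)) := by ring
      _ = η * (κ * d) := by rw [Real.mul_self_sqrt hkd0.le]
  · calc κ * L ^ 3 ≤ 1 / L ^ 7 * L ^ 3 := by gcongr
      _ = 1 / L ^ 4 := by field_simp
      _ ≤ η := hpow 4 (by norm_num)
  · apply (pow_le_pow_iff_left₀ (by positivity) hη.le two_ne_zero).mp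
    rw [mul_pow, Real.sq_sqrt hk0.le]
    calc κ * (L ^ 2) ^ 2 ≤ 1 / L ^ 7 * (L ^ 2) ^ 2 := by gcongr
      _ = 1 / L ^ 3 := by field_simp
      _ ≤ 1 / L ^ 2 := by
        apply one_div_le_one_div_of_le (by positivity)
        exact pow_le_pow_right₀ hL1 (by norm_num)
      _ = (1 / L) ^ 2 := by rw [div_pow, one_pow]
      _ ≤ η ^ 2 := by gcongr
  · have : 1 ≤ L ^ 2 := one_le_pow₀ hL1
    calc (1 : ℝ) ≤ η ^ 2 * (κ * d) := le_trans this hkd
      _ ≤ η * (κ * d) := by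
        apply mul_le_mul_of_nonneg_right _ hkd0.le
        nlinarith

section Defs5

variable {V : Type u} [Fintype V]

/-- the weights, `1` on the pairs in `K` -/
noncomputable def wp (G : SimpleGraph V) (d : ℕ) (b : ℝ) (K : Finset V) (v w : V) : ℝ :=
  if v ∈ K ∧ w ∈ K then 1 else wpi G d b K v w

/-- probability of the reserve edges -/
noncomputable def th (G : SimpleGraph V) (d : ℕ) (b ρ κ : ℝ) (K : Finset V) (v w : V) : ℝ :=
  (1 - ρ) * κ * wp G d b K v w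

/-- first value on the other arcs -/
noncomputable def xx (G : SimpleGraph V) (d : ℕ) (b ρ κ : ℝ) (K : Finset V) (v w : V) : ℝ :=
  ρ * κ * wp G d b K v w / (1 - th G d b ρ κ K v w)

/-- mean number of arcs not in the reserve, per side -/
noncomputable def ccf (G G1 : SimpleGraph V) (d : ℕ) (b ρ κ : ℝ) (K : Finset V) (v : V) : ℝ :=
  (∑ w ∈ nb G1 v, (1 - th G d b ρ κ K v w)) / 2

/-- the test sets -/
noncomputable def XX (K : Finset V) (M : Bool → Finset V) : Fin 7 → Finset V :=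
  ![univ, K, Kᶜ, M true ∩ K, M false ∩ K, M true \ K, M false \ K]

/-- the tests -/
noncomputable def hh (G : SimpleGraph V) (d : ℕ) (b ρ κ : ℝ) (K : Finset V)
    (M : Bool → Finset V) : Fin 8 → V → V → ℝ :=
  Fin.cons (fun v w => xx G d b ρ κ K v w / (2 * κ)) fun j _ w => if w ∈ XX K M j then 1 else 0

/-- everything we use -/
structure Ctx (G G1 : SimpleGraph V) (d f : ℕ) (b ρ κ η C : ℝ) (K : Finset V)
    (M : Bool → Finset V) : Prop where
  reg : Reg G d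
  lab : Lab0 G d b ρ K M
  hG1 : ∀ v w, G1.Adj v w ↔ G.Adj v w ∧ ¬ (v ∈ K ∧ w ∈ K)
  hf : (f : ℝ) + ρ / 2 = κ * d / 2
  b0 : 0 < b
  b1 : b ≤ 1 / 64
  ρ0 : 0 < ρ
  ρ1 : ρ ≤ 1 / 16
  d3 : 3 ≤ d
  lg : 1 ≤ Real.log d
  k0 : 0 < κ
  kη : κ ≤ η
  s1 : √(d : ℝ) * Real.log d ≤ η * d
  s2 : √(κ * d) * Real.log d ≤ η * (κ * d)
  s3 : κ * Real.log d ^ 3 ≤ η
  s4 : √κ * Real.log d ^ 2 ≤ η
  s5 : 1 ≤ η * (κ * d)
  η0 : 0 < η
  C1 : 1 ≤ C
  e1 : η * (1000 * (C + 10)) ≤ ρ ^ 2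
  e2 : η * (1000 * (C + 10)) ≤ b
  wb : ∀ v w, ¬ (v ∈ K ∧ w ∈ K) → 3 / 4 ≤ wpi G d b K v w ∧ wpi G d b K v w ≤ 5 / 4
  ws : ∀ v, |∑ w ∈ nb G v, wpi G d b K v w - d| ≤ C * Real.log d ^ 3

end Defs5

section Facts

variable {V : Type u} [Fintype V] {G G1 : SimpleGraph V} {d f : ℕ} {b ρ κ η C : ℝ}
  {K : Finset V} {M : Bool → Finset V}

theorem Ctx.dpos (c : Ctx G G1 d f b ρ κ η C K M) : (0 : ℝ) < d := by
  have := c.d3
  have : (3 : ℝ) ≤ d := by exact_mod_cast this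
  linarith

theorem Ctx.ηs (c : Ctx G G1 d f b ρ κ η C K M) : η ≤ 1 / 1000000 := by
  have h1 := c.e1
  have h2 : ρ ^ 2 ≤ (1 / 16) ^ 2 := by
    have := c.ρ0; have := c.ρ1; gcongr
  have h3 : η * 11000 ≤ η * (1000 * (C + 10)) := by
    have hη := c.η0
    have := c.C1
    apply mul_le_mul_of_nonneg_left _ hη.le
    linarith
  nlinarith

theorem Ctx.wp_bd (c : Ctx G G1 d f b ρ κ η C K M) (v w : V) :
    3 / 4 ≤ wp G d b K v w ∧ wp G d b K v w ≤ 5 / 4 := by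
  unfold wp
  split_ifs with h
  · constructor <;> norm_num
  · exact c.wb v w h

theorem wp_symm (G : SimpleGraph V) (d : ℕ) (b : ℝ) (K : Finset V) (v w : V) :
    wp G d b K v w = wp G d b K w v := by
  unfold wp
  rw [wpi_symm G d b K v w]
  simp only [and_comm]

theorem th_symm (G : SimpleGraph V) (d : ℕ) (b ρ κ : ℝ) (K : Finset V) (v w : V) :
    th G d b ρ κ K v w = th G d b ρ κ K w v := by
  unfold th
  rw [wp_symm]

theorem xx_symm (G : SimpleGraph V) (d : ℕ) (b ρ κ : ℝ) (K : Finset V) (v w : V) :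
    xx G d b ρ κ K v w = xx G d b ρ κ K w v := by
  unfold xx
  rw [wp_symm, th_symm]

theorem Ctx.th_lo (c : Ctx G G1 d f b ρ κ η C K M) (v w : V) :
    2 / 3 * κ ≤ th G d b ρ κ K v w := by
  unfold th
  have h1 := (c.wp_bd v w).1
  have h2 := c.k0
  have h3 := c.ρ1
  have h4 : 15 / 16 ≤ 1 - ρ := by linarith
  calc 2 / 3 * κ ≤ 15 / 16 * κ * (3 / 4) := by linarith
    _ ≤ (1 - ρ) * κ * wp G d b K v w := by gcongr

theorem Ctx.th_hi (c : Ctx G G1 d f b ρ κ η C K M) (v w : V) :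
    th G d b ρ κ K v w ≤ 5 / 4 * κ := by
  unfold th
  have h1 := (c.wp_bd v w).2
  have h1' := (c.wp_bd v w).1
  have h2 := c.k0
  have h3 := c.ρ0
  have h4 := c.ρ1
  calc (1 - ρ) * κ * wp G d b K v w ≤ 1 * κ * (5 / 4) := by
        gcongr
        · linarith
    _ = 5 / 4 * κ := by ring

theorem Ctx.th_pos (c : Ctx G G1 d f b ρ κ η C K M) (v w : V) :
    0 ≤ th G d b ρ κ K v w := by
  have := c.th_lo v w
  have := c.k0
  linarith

theorem Ctx.th1 (c : Ctx G G1 d f b ρ κ η C K M) (v w : V) :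
    9 / 10 ≤ 1 - th G d b ρ κ K v w := by
  have := c.th_hi v w
  have := c.kη
  have := c.ηs
  linarith

theorem Ctx.xx_lo (c : Ctx G G1 d f b ρ κ η C K M) (v w : V) :
    3 / 4 * ρ * κ ≤ xx G d b ρ κ K v w := by
  unfold xx
  have h1 := (c.wp_bd v w).1
  have h2 := c.k0
  have h3 := c.ρ0
  have h4 := c.th1 v w
  have h5 := c.th_pos v w
  rw [le_div_iff₀ (by linarith)]
  calc 3 / 4 * ρ * κ * (1 - th G d b ρ κ K v w) ≤ 3 / 4 * ρ * κ * 1 := by
        gcongr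
        linarith
    _ = ρ * κ * (3 / 4) := by ring
    _ ≤ ρ * κ * wp G d b K v w := by gcongr

theorem Ctx.xx_hi (c : Ctx G G1 d f b ρ κ η C K M) (v w : V) :
    xx G d b ρ κ K v w ≤ κ := by
  unfold xx
  have h1 := (c.wp_bd v w).2
  have h1' := (c.wp_bd v w).1
  have h2 := c.k0
  have h3 := c.ρ0
  have h3' := c.ρ1
  have h4 := c.th1 v w
  have h5 := c.th_pos v w
  rw [div_le_iff₀ (by linarith)]
  calc ρ * κ * wp G d b K v w ≤ 1 / 16 * κ * (5 / 4) := by gcongr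
    _ ≤ κ * (9 / 10) := by linarith
    _ ≤ κ * (1 - th G d b ρ κ K v w) := by gcongr

theorem Ctx.xx_pos (c : Ctx G G1 d f b ρ κ η C K M) (v w : V) :
    0 ≤ xx G d b ρ κ K v w := by
  have := c.xx_lo v w
  have h2 := c.k0
  have h3 := c.ρ0
  have : 0 ≤ 3 / 4 * ρ * κ := by positivity
  linarith

theorem Ctx.th_xx (c : Ctx G G1 d f b ρ κ η C K M) (v w : V) :
    (1 - th G d b ρ κ K v w) * xx G d b ρ κ K v w = ρ * κ * wp G d b K v w := by
  unfold xx
  have h4 := c.th1 v w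
  have : (1 - th G d b ρ κ K v w) ≠ 0 := by linarith
  field_simp

theorem mem_nb {G : SimpleGraph V} {v w : V} : w ∈ nb G v ↔ G.Adj v w := by
  simp [nb]

theorem Ctx.nbK (c : Ctx G G1 d f b ρ κ η C K M) (v : V) (hv : v ∈ K) :
    nb G1 v = nb G v \ K := by
  ext w
  rw [Finset.mem_sdiff, mem_nb, mem_nb, c.hG1]
  tauto

theorem Ctx.nbO (c : Ctx G G1 d f b ρ κ η C K M) (v : V) (hv : v ∉ K) :
    nb G1 v = nb G v := by
  ext w
  rw [mem_nb, mem_nb, c.hG1]
  tauto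

theorem Ctx.nbsd (c : Ctx G G1 d f b ρ κ η C K M) (v : V) :
    nb G1 v \ K = nb G v \ K := by
  by_cases hv : v ∈ K
  · rw [c.nbK v hv]
    ext w; simp
  · rw [c.nbO v hv]

theorem Ctx.nb_sub (c : Ctx G G1 d f b ρ κ η C K M) (v : V) : nb G1 v ⊆ nb G v := by
  intro w hw
  rw [mem_nb, c.hG1] at hw
  exact mem_nb.mpr hw.1

theorem Ctx.nb_le (c : Ctx G G1 d f b ρ κ η C K M) (v : V) : ((nb G1 v).card : ℝ) ≤ d := by
  have h := card_le_card (c.nb_sub v)
  rw [c.reg v] at h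
  exact_mod_cast h

theorem Ctx.sum_wp (c : Ctx G G1 d f b ρ κ η C K M) (v : V) :
    ∑ w ∈ nb G1 v, wp G d b K v w = ∑ w ∈ nb G v, wpi G d b K v w := by
  rw [← sum_subset (c.nb_sub v)]
  · apply sum_congr rfl
    intro w hw
    rw [mem_nb, c.hG1] at hw
    unfold wp
    rw [if_neg hw.2]
  · intro w hw hw'
    rw [mem_nb] at hw
    rw [mem_nb, c.hG1] at hw'
    have : v ∈ K ∧ w ∈ K := by tauto
    unfold wpi
    rw [if_pos this]

theorem Ctx.swp (c : Ctx G G1 d f b ρ κ η C K M) (v : V) :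
    |∑ w ∈ nb G1 v, wp G d b K v w - d| ≤ C * Real.log d ^ 3 := by
  rw [c.sum_wp]
  exact c.ws v

theorem Ctx.sth (c : Ctx G G1 d f b ρ κ η C K M) (v : V) :
    |∑ w ∈ nb G1 v, th G d b ρ κ K v w - (1 - ρ) * κ * d| ≤ C * η := by
  have h := c.swp v
  have h1 : ∑ w ∈ nb G1 v, th G d b ρ κ K v w = (1 - ρ) * κ * ∑ w ∈ nb G1 v, wp G d b K v w := by
    rw [mul_sum]; rfl
  rw [h1, ← mul_sub, abs_mul, abs_of_nonneg (by
    have hk := c.k0
    have := c.ρ1
    apply mul_nonneg _ hk.le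
    linarith)]
  have hk := c.k0
  have hρ := c.ρ0
  have hs := c.s3
  have hC := c.C1
  have hl : 0 ≤ Real.log d ^ 3 := by have := c.lg; positivity
  calc (1 - ρ) * κ * |∑ w ∈ nb G1 v, wp G d b K v w - d| ≤ 1 * κ * (C * Real.log d ^ 3) := by
        gcongr
        linarith
    _ = C * (κ * Real.log d ^ 3) := by ring
    _ ≤ C * η := by gcongr

theorem Ctx.mtot_eq (c : Ctx G G1 d f b ρ κ η C K M) (v : V) :
    mtot G1 (th G d b ρ κ K) (xx G d b ρ κ K) v = κ / 2 * ∑ w ∈ nb G1 v, wp G d b K v w := by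
  unfold mtot
  rw [sum_congr rfl (fun w _ => by rw [c.th_xx v w]), mul_sum, sum_div]
  apply sum_congr rfl
  intro w _
  unfold th
  ring

theorem Ctx.mtot_bd (c : Ctx G G1 d f b ρ κ η C K M) (v : V) :
    |mtot G1 (th G d b ρ κ K) (xx G d b ρ κ K) v - (f + ρ / 2)| ≤ C * η := by
  rw [c.mtot_eq, c.hf]
  have h := c.swp v
  have hk := c.k0
  have hs := c.s3
  have hC := c.C1
  have hl : 0 ≤ Real.log d ^ 3 := by have := c.lg; positivity
  have : κ / 2 * ∑ w ∈ nb G1 v, wp G d b K v w - κ * d / 2 =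
    κ / 2 * (∑ w ∈ nb G1 v, wp G d b K v w - d) := by ring
  rw [this, abs_mul, abs_of_nonneg (by positivity)]
  calc κ / 2 * |∑ w ∈ nb G1 v, wp G d b K v w - d| ≤ κ / 2 * (C * Real.log d ^ 3) := by gcongr
    _ = C / 2 * (κ * Real.log d ^ 3) := by ring
    _ ≤ C / 2 * η := by gcongr
    _ ≤ C * η := by have := c.η0; gcongr; linarith

/-- the constant of the type of `v` -/
noncomputable def cty (d : ℕ) (b ρ κ : ℝ) (K : Finset V) (v : V) : ℝ :=
  ((if v ∈ K then 1 - b else 1) - (1 - ρ) * κ) * d / 2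

theorem Ctx.cardK (c : Ctx G G1 d f b ρ κ η C K M) (v : V) :
    |((nb G1 v ∩ K).card : ℝ) - (if v ∈ K then 0 else b * d)| ≤ √(d : ℝ) * Real.log d := by
  by_cases hv : v ∈ K
  · rw [c.nbK v hv, if_pos hv]
    have : (nb G v \ K) ∩ K = ∅ := by ext w; simp
    rw [this]
    simp
    have := c.lg; positivity
  · rw [c.nbO v hv, if_neg hv]
    exact c.lab.k v

theorem Ctx.cardO (c : Ctx G G1 d f b ρ κ η C K M) (v : V) :
    |((nb G1 v \ K).card : ℝ) - (1 - b) * d| ≤ √(d : ℝ) * Real.log d := by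
  rw [c.nbsd v]
  have h1 : ((nb G v \ K).card : ℝ) + ((nb G v ∩ K).card : ℝ) = d := by
    have := card_sdiff_add_card_inter (nb G v) K
    rw [c.reg v] at this
    exact_mod_cast this
  have h2 := c.lab.k v
  unfold LK at h2
  have : ((nb G v \ K).card : ℝ) - (1 - b) * d = -(((nb G v ∩ K).card : ℝ) - b * d) := by linarith
  rw [this, abs_neg]
  exact h2

theorem Ctx.card1 (c : Ctx G G1 d f b ρ κ η C K M) (v : V) :
    |((nb G1 v).card : ℝ) - (if v ∈ K then 1 - b else 1) * d| ≤ √(d : ℝ) * Real.log d := by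
  by_cases hv : v ∈ K
  · rw [if_pos hv, c.nbK v hv]
    have := c.cardO v
    rw [c.nbsd v] at this
    exact this
  · rw [if_neg hv, c.nbO v hv, c.reg v, one_mul, sub_self, abs_zero]
    have := c.lg; positivity

theorem Ctx.cc_cty (c : Ctx G G1 d f b ρ κ η C K M) (v : V) :
    |ccf G G1 d b ρ κ K v - cty d b ρ κ K v| ≤ √(d : ℝ) * Real.log d + C * η := by
  have h1 := c.card1 v
  have h2 := c.sth v
  unfold ccf cty
  rw [sum_sub_distrib, sum_const, nsmul_eq_mul, mul_one]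
  have hη := c.η0
  have hC := c.C1
  have hsl : 0 ≤ √(d : ℝ) * Real.log d := by have := c.lg; positivity
  have hCη : 0 ≤ C * η := by positivity
  have h1' := abs_le.mp h1
  have h2' := abs_le.mp h2
  rw [abs_le]
  constructor <;> nlinarith

theorem Ctx.cty_lo (c : Ctx G G1 d f b ρ κ η C K M) (v : V) :
    2 / 5 * d ≤ cty d b ρ κ K v := by
  unfold cty
  have hb := c.b1
  have hk := c.kη
  have hk0 := c.k0
  have hη := c.ηs
  have hρ := c.ρ0
  have hd := c.dpos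
  have h1 : (1 - ρ) * κ ≤ 1 / 100 := by nlinarith
  have h2 : 1 - b ≤ if v ∈ K then 1 - b else 1 := by
    split_ifs
    · exact le_refl _
    · linarith [c.b0]
  have h3 : 4 / 5 ≤ (if v ∈ K then 1 - b else 1) - (1 - ρ) * κ := by linarith
  nlinarith

theorem Ctx.slog (c : Ctx G G1 d f b ρ κ η C K M) : √(d : ℝ) * Real.log d ≤ d / 1000000 := by
  have h1 := c.s1
  have h2 := c.ηs
  have hd := c.dpos
  nlinarith

theorem Ctx.Cη (c : Ctx G G1 d f b ρ κ η C K M) : C * η ≤ 1 / 200000 := by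
  have h1 := c.e1
  have h2 : ρ ^ 2 ≤ (1 / 16) ^ 2 := by
    have := c.ρ0; have := c.ρ1; gcongr
  have := c.η0
  nlinarith

theorem Ctx.ccf_lo (c : Ctx G G1 d f b ρ κ η C K M) (v : V) :
    7 / 20 * d ≤ ccf G G1 d b ρ κ K v := by
  have h1 := abs_le.mp (c.cc_cty v)
  have h2 := c.cty_lo v
  have h3 := c.slog
  have h4 := c.Cη
  have h5 : (3 : ℝ) ≤ d := by exact_mod_cast c.d3
  linarith [h1.1]

theorem Ctx.edat (c : Ctx G G1 d f b ρ κ η C K M) (a : ℝ) (k1 : (d : ℝ) ^ (-a) ≤ κ)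
    (k2 : κ ≤ (d : ℝ) ^ (-(a / 3))) :
    Edat G G1 d a κ (th G d b ρ κ K) (xx G d b ρ κ K) (hh G d b ρ κ K M) (ccf G G1 d b ρ κ K) where
  reg := c.reg
  sub := by
    intro v w h
    exact ((c.hG1 v w).mp h).1
  k1 := k1
  k2 := k2
  th := th_symm G d b ρ κ K
  th1 := fun v w => by have := c.th_lo v w; have := c.k0; linarith
  th2 := fun v w => by have := c.th_hi v w; have := c.k0; linarith
  y0 := c.xx_pos
  y1 := fun v w => by have := c.xx_hi v w; have := c.k0; linarith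
  ys := xx_symm G d b ρ κ K
  h0 := by
    intro j
    refine Fin.cases ?_ ?_ j
    · intro v w
      simp only [hh, Fin.cons_zero]
      have := c.xx_pos v w
      have := c.k0
      positivity
    · intro j v w
      simp only [hh, Fin.cons_succ]
      split_ifs <;> norm_num
  h1 := by
    intro j
    refine Fin.cases ?_ ?_ j
    · intro v w
      simp only [hh, Fin.cons_zero]
      have := c.xx_hi v w
      have := c.k0
      rw [div_le_one (by positivity)]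
      linarith
    · intro j v w
      simp only [hh, Fin.cons_succ]
      split_ifs <;> norm_num
  c1 := fun v => by have := c.ccf_lo v; have := c.dpos; linarith

end Facts

end Pool.Agent.Work.MP_db9399_cg.helper83
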