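import Pool.Agent.Work.MP_db9399_cg_helper83.A5a

/-!
# MP_db9399, SPW, block A5 (helper83), part 2: what the coins give at a vertex
-/

set_option autoImplicit false

namespace Pool.Agent.Work.MP_db9399_cg.helper83

open Finset Classical Filter Topology
open Pool.Agent.Work.MP_db9399_all (nb)
open Pool.Agent.Work.MP_db9399_cg

universe u

section

variable {V : Type u} [Fintype V]

/-- the coins -/
structure Coi (G G1 : SimpleGraph V) (d : ℕ) (b ρ κ : ℝ) (K : Finset V) (M : Bool → Finset V)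
    (O Z : V → V → Prop) : Prop where
  hO : ∀ v w, G1.Adj v w → (O v w ↔ ¬ O w v)
  hO' : ∀ v w, O v w → G1.Adj v w
  hZ : ∀ v w, Z v w → Z w v
  hZ' : ∀ v w, Z v w → G1.Adj v w
  hC : ∀ v, CoinV G1 d κ (th G d b ρ κ K) (xx G d b ρ κ K) (hh G d b ρ κ K M)
    (ccf G G1 d b ρ κ K) O Z v

/-- number of non-reserve arcs on the side `s` -/
noncomputable def nn (O Z : V → V → Prop) (s : Bool) (v : V) : ℝ := ((sdc O Z s v).card : ℝ)

/-- what is missing on the side `s` -/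
noncomputable def nu (O Z : V → V → Prop) (x1 : V → V → ℝ) (f : ℕ) (M : Bool → Finset V)
    (s : Bool) (v : V) : ℝ := f + (if v ∈ M s then 1 / 2 else 0) - tot O Z x1 s v

/-- error after the first correction -/
noncomputable def EE (O Z : V → V → Prop) (x1 : V → V → ℝ) (f : ℕ) (M : Bool → Finset V)
    (s : Bool) (v : V) : ℝ :=
  ∑ w ∈ sdc O Z s v, nu O Z x1 f M (!s) w / nn O Z (!s) w

variable {G G1 : SimpleGraph V} {d f : ℕ} {b ρ κ η C : ℝ}
  {K : Finset V} {M : Bool → Finset V} {O Z : V → V → Prop}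

theorem Coi.sd_sub (q : Coi G G1 d b ρ κ K M O Z) (s : Bool) (v : V) : sd O s v ⊆ nb G1 v := by
  intro w hw
  rw [mem_nb]
  cases s
  · simp only [sd, mem_filter, mem_univ, true_and] at hw
    exact (q.hO' w v (by simpa using hw)).symm
  · simp only [sd, mem_filter, mem_univ, true_and] at hw
    exact q.hO' v w (by simpa using hw)

theorem Coi.sdc_sub (q : Coi G G1 d b ρ κ K M O Z) (s : Bool) (v : V) :
    sdc O Z s v ⊆ nb G1 v := (filter_subset _ _).trans (q.sd_sub s v)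

theorem Coi.sdz_sub (q : Coi G G1 d b ρ κ K M O Z) (s : Bool) (v : V) :
    sdz O Z s v ⊆ nb G1 v := (filter_subset _ _).trans (q.sd_sub s v)

theorem Coi.nn_le (q : Coi G G1 d b ρ κ K M O Z) (c : Ctx G G1 d f b ρ κ η C K M) (s : Bool)
    (v : V) : nn O Z s v ≤ d := by
  have h := card_le_card (q.sdc_sub s v)
  have h2 := c.nb_le v
  unfold nn
  have : ((sdc O Z s v).card : ℝ) ≤ (nb G1 v).card := by exact_mod_cast h
  linarith

theorem Coi.ts (q : Coi G G1 d b ρ κ K M O Z) (j : Fin 7) (s : Bool) (v : V) :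
    |((sdc O Z s v ∩ XX K M j).card : ℝ) -
      (∑ w ∈ nb G1 v ∩ XX K M j, (1 - th G d b ρ κ K v w)) / 2| ≤ √(d : ℝ) * Real.log d := by
  have h := (q.hC v).i j.succ s
  simp only [hh, Fin.cons_succ] at h
  have e1 : ∑ w ∈ sdc O Z s v, (if w ∈ XX K M j then (1 : ℝ) else 0) =
      ((sdc O Z s v ∩ XX K M j).card : ℝ) := by
    rw [← sum_filter, sum_const, nsmul_eq_mul, mul_one, filter_mem_eq_inter]
  have e2 : ∑ w ∈ nb G1 v, (1 - th G d b ρ κ K v w) * (if w ∈ XX K M j then (1 : ℝ) else 0) =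
      ∑ w ∈ nb G1 v ∩ XX K M j, (1 - th G d b ρ κ K v w) := by
    simp_rw [mul_ite, mul_one, mul_zero]
    rw [← sum_filter, filter_mem_eq_inter]
  rw [e1, e2] at h
  exact h

theorem Coi.tz (q : Coi G G1 d b ρ κ K M O Z) (j : Fin 7) (s : Bool) (v : V) :
    |((sdz O Z s v ∩ XX K M j).card : ℝ) -
      (∑ w ∈ nb G1 v ∩ XX K M j, th G d b ρ κ K v w) / 2| ≤ √(κ * d) * Real.log d := by
  have h := (q.hC v).ii j.succ s
  simp only [hh, Fin.cons_succ] at h
  have e1 : ∑ w ∈ sdz O Z s v, (if w ∈ XX K M j then (1 : ℝ) else 0) =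
      ((sdz O Z s v ∩ XX K M j).card : ℝ) := by
    rw [← sum_filter, sum_const, nsmul_eq_mul, mul_one, filter_mem_eq_inter]
  have e2 : ∑ w ∈ nb G1 v, th G d b ρ κ K v w * (if w ∈ XX K M j then (1 : ℝ) else 0) =
      ∑ w ∈ nb G1 v ∩ XX K M j, th G d b ρ κ K v w := by
    simp_rw [mul_ite, mul_one, mul_zero]
    rw [← sum_filter, filter_mem_eq_inter]
  rw [e1, e2] at h
  exact h

theorem Coi.nn_cc (q : Coi G G1 d b ρ κ K M O Z) (s : Bool) (v : V) :
    |nn O Z s v - ccf G G1 d b ρ κ K v| ≤ √(d : ℝ) * Real.log d := by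
  have h := q.ts 0 s v
  have e : XX K M 0 = univ := rfl
  rw [e, inter_univ, inter_univ] at h
  exact h

theorem Coi.sdcX (q : Coi G G1 d b ρ κ K M O Z) (c : Ctx G G1 d f b ρ κ η C K M) (j : Fin 7)
    (s : Bool) (v : V) :
    |((sdc O Z s v ∩ XX K M j).card : ℝ) - ((nb G1 v ∩ XX K M j).card : ℝ) / 2| ≤
      √(d : ℝ) * Real.log d + κ * d := by
  have h := q.ts j s v
  have h2 : |(∑ w ∈ nb G1 v ∩ XX K M j, (1 - th G d b ρ κ K v w)) / 2 -
      ((nb G1 v ∩ XX K M j).card : ℝ) / 2| ≤ κ * d := by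
    rw [sum_sub_distrib, sum_const, nsmul_eq_mul, mul_one]
    have h3 : 0 ≤ ∑ w ∈ nb G1 v ∩ XX K M j, th G d b ρ κ K v w :=
      sum_nonneg fun w _ => c.th_pos v w
    have h4 : ∑ w ∈ nb G1 v ∩ XX K M j, th G d b ρ κ K v w ≤ (5 / 4 * κ) * d := by
      calc ∑ w ∈ nb G1 v ∩ XX K M j, th G d b ρ κ K v w
          ≤ ∑ w ∈ nb G1 v ∩ XX K M j, 5 / 4 * κ := sum_le_sum fun w _ => c.th_hi v w
        _ = ((nb G1 v ∩ XX K M j).card : ℝ) * (5 / 4 * κ) := by rw [sum_const, nsmul_eq_mul]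
        _ ≤ d * (5 / 4 * κ) := by
            have := c.k0
            have h5 : ((nb G1 v ∩ XX K M j).card : ℝ) ≤ (nb G1 v).card := by
              exact_mod_cast card_le_card inter_subset_left
            have h6 := c.nb_le v
            exact mul_le_mul_of_nonneg_right (by linarith) (by positivity)
        _ = (5 / 4 * κ) * d := by ring
    have hk := c.k0
    have hd := c.dpos
    have : 0 ≤ κ * d := by positivity
    rw [abs_le]
    constructor <;> linarith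
  calc _ ≤ _ + _ := abs_sub_le _ ((∑ w ∈ nb G1 v ∩ XX K M j, (1 - th G d b ρ κ K v w)) / 2) _
    _ ≤ _ := add_le_add h h2

theorem Coi.tot_bd (q : Coi G G1 d b ρ κ K M O Z) (c : Ctx G G1 d f b ρ κ η C K M)
    (s : Bool) (v : V) :
    |tot O Z (xx G d b ρ κ K) s v - mtot G1 (th G d b ρ κ K) (xx G d b ρ κ K) v| ≤
      3 * (√(κ * d) * Real.log d) := by
  have h1 := q.tz 0 s v
  have e : XX K M 0 = univ := rfl
  rw [e, inter_univ, inter_univ] at h1
  have h2 := (q.hC v).i 0 s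
  simp only [hh, Fin.cons_zero] at h2
  have hk := c.k0
  have hd := c.dpos
  have hl := c.lg
  have hη := c.ηs
  have hkη := c.kη
  have e1 : ∑ w ∈ sdc O Z s v, xx G d b ρ κ K v w / (2 * κ) =
      (∑ w ∈ sdc O Z s v, xx G d b ρ κ K v w) / (2 * κ) := by rw [sum_div]
  have e2 : ∑ w ∈ nb G1 v, (1 - th G d b ρ κ K v w) * (xx G d b ρ κ K v w / (2 * κ)) =
      (∑ w ∈ nb G1 v, (1 - th G d b ρ κ K v w) * xx G d b ρ κ K v w) / (2 * κ) := by
    rw [sum_div]
    exact sum_congr rfl fun w _ => by ring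
  rw [e1, e2] at h2
  have h3 : |(∑ w ∈ sdc O Z s v, xx G d b ρ κ K v w) -
      (∑ w ∈ nb G1 v, (1 - th G d b ρ κ K v w) * xx G d b ρ κ K v w) / 2| ≤
      2 * (√(κ * d) * Real.log d) := by
    have e3 : (∑ w ∈ sdc O Z s v, xx G d b ρ κ K v w) -
      (∑ w ∈ nb G1 v, (1 - th G d b ρ κ K v w) * xx G d b ρ κ K v w) / 2 =
      (2 * κ) * ((∑ w ∈ sdc O Z s v, xx G d b ρ κ K v w) / (2 * κ) -
      (∑ w ∈ nb G1 v, (1 - th G d b ρ κ K v w) * xx G d b ρ κ K v w) / (2 * κ) / 2) := by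
      field_simp
    rw [e3, abs_mul, abs_of_nonneg (by positivity)]
    calc 2 * κ * _ ≤ 2 * κ * (√(d : ℝ) * Real.log d) := by gcongr
      _ = 2 * (κ * √(d : ℝ)) * Real.log d := by ring
      _ ≤ 2 * √(κ * d) * Real.log d := by
          gcongr
          rw [Real.sqrt_mul hk.le]
          apply mul_le_mul_of_nonneg_right _ (Real.sqrt_nonneg _)
          have : κ ≤ 1 := by linarith
          calc κ = √κ * √κ := (Real.mul_self_sqrt hk.le).symm
            _ ≤ √κ * 1 := by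
                gcongr
                exact Real.sqrt_le_one.mpr this
            _ = √κ := mul_one _
      _ = _ := by ring
  unfold tot mtot
  rw [sum_add_distrib]
  have e4 : ((sdz O Z s v).card : ℝ) + ∑ w ∈ sdc O Z s v, xx G d b ρ κ K v w -
      (∑ w ∈ nb G1 v, th G d b ρ κ K v w +
        ∑ w ∈ nb G1 v, (1 - th G d b ρ κ K v w) * xx G d b ρ κ K v w) / 2 =
      (((sdz O Z s v).card : ℝ) - (∑ w ∈ nb G1 v, th G d b ρ κ K v w) / 2) +
      ((∑ w ∈ sdc O Z s v, xx G d b ρ κ K v w) -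
      (∑ w ∈ nb G1 v, (1 - th G d b ρ κ K v w) * xx G d b ρ κ K v w) / 2) := by ring
  rw [e4]
  calc _ ≤ _ + _ := abs_add_le _ _
    _ ≤ √(κ * d) * Real.log d + 2 * (√(κ * d) * Real.log d) := add_le_add h1 h3
    _ = _ := by ring

theorem Coi.nn_lo (q : Coi G G1 d b ρ κ K M O Z) (c : Ctx G G1 d f b ρ κ η C K M)
    (s : Bool) (v : V) : 1 / 3 * d ≤ nn O Z s v := by
  have h1 := abs_le.mp (q.nn_cc s v)
  have h2 := c.ccf_lo v
  have h3 := c.slog
  have hd := c.dpos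
  linarith [h1.1]

/-- the main value of the label part -/
noncomputable def aa (M : Bool → Finset V) (ρ : ℝ) (s : Bool) (w : V) : ℝ :=
  (if w ∈ M s then 1 / 2 else 0) - ρ / 2

omit [Fintype V] in
theorem sum_aa (M : Bool → Finset V) (ρ : ℝ) (s : Bool) (A : Finset V) :
    ∑ w ∈ A, aa M ρ s w = ((A ∩ M s).card : ℝ) / 2 - ρ / 2 * (A.card : ℝ) := by
  unfold aa
  rw [sum_sub_distrib, sum_const, nsmul_eq_mul, ← sum_filter, sum_const, nsmul_eq_mul]
  have : A.filter (fun w => w ∈ M s) = A ∩ M s := by ext w; simp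
  rw [this]
  ring

theorem Coi.aK (q : Coi G G1 d b ρ κ K M O Z) (c : Ctx G G1 d f b ρ κ η C K M)
    (s t : Bool) (v : V) :
    |∑ w ∈ sdc O Z s v ∩ K, aa M ρ t w| ≤ 5 / 2 * η * d := by
  rw [sum_aa]
  have hK := q.sdcX c 1 s v
  have eK : XX K M 1 = K := rfl
  rw [eK] at hK
  have hk := c.cardK v
  have hM : |((sdc O Z s v ∩ (M t ∩ K)).card : ℝ) - ((nb G1 v ∩ (M t ∩ K)).card : ℝ) / 2| ≤
      √(d : ℝ) * Real.log d + κ * d := by
    cases t
    · exact q.sdcX c 4 s v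
    · exact q.sdcX c 3 s v
  have hm : |((nb G1 v ∩ (M t ∩ K)).card : ℝ) - (if v ∈ K then 0 else ρ * b * d)| ≤
      √(d : ℝ) * Real.log d := by
    by_cases hv : v ∈ K
    · rw [c.nbK v hv, if_pos hv]
      have : (nb G v \ K) ∩ (M t ∩ K) = ∅ := by
        ext w; simp; tauto
      rw [this]
      simp
      have := c.lg; positivity
    · rw [c.nbO v hv, if_neg hv, ← inter_assoc]
      exact c.lab.m1 t v
  have e : sdc O Z s v ∩ K ∩ M t = sdc O Z s v ∩ (M t ∩ K) := by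
    rw [inter_assoc, inter_comm K]
  rw [e]
  have hs1 := c.s1
  have hkη := c.kη
  have hk0 := c.k0
  have hd := c.dpos
  have hρ0 := c.ρ0
  have hρ1 := c.ρ1
  have hkd : κ * d ≤ η * d := by gcongr
  have hkd0 : 0 ≤ κ * d := by positivity
  have he0 : 0 ≤ √(d : ℝ) * Real.log d := by have := c.lg; positivity
  generalize √(d : ℝ) * Real.log d = e1 at *
  generalize ((sdc O Z s v ∩ (M t ∩ K)).card : ℝ) = x1 at *
  generalize ((nb G1 v ∩ (M t ∩ K)).card : ℝ) = x2 at *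
  generalize ((sdc O Z s v ∩ K).card : ℝ) = x3 at *
  generalize ((nb G1 v ∩ K).card : ℝ) = x4 at *
  -- |x1 - A/2| ≤ 1.5 e1 + κ d, |x3 - B/2| ≤ 1.5 e1 + κ d, A = ρ B
  have hAB : ∃ B : ℝ, |x2 - ρ * B| ≤ e1 ∧ |x4 - B| ≤ e1 := by
    by_cases hv : v ∈ K
    · refine ⟨0, ?_, ?_⟩
      · rw [if_pos hv] at hm; simpa using hm
      · rw [if_pos hv] at hk; simpa using hk
    · refine ⟨b * d, ?_, ?_⟩
      · rw [if_neg hv] at hm; rw [← mul_assoc]; exact hm
      · rw [if_neg hv] at hk; exact hk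
  obtain ⟨B, hB1, hB2⟩ := hAB
  have g1 := abs_le.mp hK
  have g2 := abs_le.mp hM
  have g3 := abs_le.mp hB1
  have g4 := abs_le.mp hB2
  have u1 : |x3 - B / 2| ≤ 3 / 2 * e1 + κ * d := by
    rw [abs_le]; constructor <;> linarith [g1.1, g1.2, g4.1, g4.2]
  have u2 : |x1 - ρ * B / 2| ≤ 3 / 2 * e1 + κ * d := by
    rw [abs_le]; constructor <;> linarith [g2.1, g2.2, g3.1, g3.2]
  have e5 : x1 / 2 - ρ / 2 * x3 = (x1 - ρ * B / 2) / 2 - ρ / 2 * (x3 - B / 2) := by ring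
  rw [e5]
  calc |(x1 - ρ * B / 2) / 2 - ρ / 2 * (x3 - B / 2)|
      ≤ |(x1 - ρ * B / 2) / 2| + |ρ / 2 * (x3 - B / 2)| := abs_sub _ _
    _ = |x1 - ρ * B / 2| / 2 + ρ / 2 * |x3 - B / 2| := by
        rw [abs_div, abs_mul, abs_of_nonneg (by positivity : 0 ≤ ρ / 2), abs_two]
    _ ≤ (3 / 2 * e1 + κ * d) / 2 + (1 / 16) / 2 * (3 / 2 * e1 + κ * d) := by gcongr
    _ ≤ 5 / 2 * η * d := by nlinarith

theorem Coi.aO (q : Coi G G1 d b ρ κ K M O Z) (c : Ctx G G1 d f b ρ κ η C K M)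
    (s t : Bool) (v : V) :
    |∑ w ∈ sdc O Z s v \ K, aa M ρ t w| ≤ 5 / 2 * η * d := by
  rw [sum_aa]
  have hK := q.sdcX c 2 s v
  have eK : XX K M 2 = Kᶜ := rfl
  rw [eK] at hK
  have hk := c.cardO v
  have hM : |((sdc O Z s v ∩ (M t \ K)).card : ℝ) - ((nb G1 v ∩ (M t \ K)).card : ℝ) / 2| ≤
      √(d : ℝ) * Real.log d + κ * d := by
    cases t
    · exact q.sdcX c 6 s v
    · exact q.sdcX c 5 s v
  have hm : |((nb G1 v ∩ (M t \ K)).card : ℝ) - ρ * (1 - b) * d| ≤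
      √(d : ℝ) * Real.log d := by
    have e : nb G1 v ∩ (M t \ K) = (nb G v ∩ M t) \ K := by
      ext w
      have h := congrArg (fun A => w ∈ A) (c.nbsd v)
      simp only [Finset.mem_sdiff, eq_iff_iff] at h
      simp only [mem_inter, Finset.mem_sdiff]
      tauto
    rw [e]
    exact c.lab.m2 t v
  have e : (sdc O Z s v \ K) ∩ M t = sdc O Z s v ∩ (M t \ K) := by
    ext w; simp; tauto
  have e' : sdc O Z s v \ K = sdc O Z s v ∩ Kᶜ := by
    ext w; simp
  have e'' : nb G1 v \ K = nb G1 v ∩ Kᶜ := by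
    ext w; simp
  rw [e, e']
  rw [e''] at hk
  have hs1 := c.s1
  have hkη := c.kη
  have hk0 := c.k0
  have hd := c.dpos
  have hρ0 := c.ρ0
  have hρ1 := c.ρ1
  have hkd : κ * d ≤ η * d := by gcongr
  have hkd0 : 0 ≤ κ * d := by positivity
  have he0 : 0 ≤ √(d : ℝ) * Real.log d := by have := c.lg; positivity
  generalize √(d : ℝ) * Real.log d = e1 at *
  generalize ((sdc O Z s v ∩ (M t \ K)).card : ℝ) = x1 at *
  generalize ((nb G1 v ∩ (M t \ K)).card : ℝ) = x2 at *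
  generalize ((sdc O Z s v ∩ Kᶜ).card : ℝ) = x3 at *
  generalize ((nb G1 v ∩ Kᶜ).card : ℝ) = x4 at *
  have hAB : ∃ B : ℝ, |x2 - ρ * B| ≤ e1 ∧ |x4 - B| ≤ e1 := by
    refine ⟨(1 - b) * d, ?_, hk⟩
    rw [← mul_assoc]; exact hm
  obtain ⟨B, hB1, hB2⟩ := hAB
  have g1 := abs_le.mp hK
  have g2 := abs_le.mp hM
  have g3 := abs_le.mp hB1
  have g4 := abs_le.mp hB2
  have u1 : |x3 - B / 2| ≤ 3 / 2 * e1 + κ * d := by
    rw [abs_le]; constructor <;> linarith [g1.1, g1.2, g4.1, g4.2]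
  have u2 : |x1 - ρ * B / 2| ≤ 3 / 2 * e1 + κ * d := by
    rw [abs_le]; constructor <;> linarith [g2.1, g2.2, g3.1, g3.2]
  have e5 : x1 / 2 - ρ / 2 * x3 = (x1 - ρ * B / 2) / 2 - ρ / 2 * (x3 - B / 2) := by ring
  rw [e5]
  calc |(x1 - ρ * B / 2) / 2 - ρ / 2 * (x3 - B / 2)|
      ≤ |(x1 - ρ * B / 2) / 2| + |ρ / 2 * (x3 - B / 2)| := abs_sub _ _
    _ = |x1 - ρ * B / 2| / 2 + ρ / 2 * |x3 - B / 2| := by
        rw [abs_div, abs_mul, abs_of_nonneg (by positivity : 0 ≤ ρ / 2), abs_two]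
    _ ≤ (3 / 2 * e1 + κ * d) / 2 + (1 / 16) / 2 * (3 / 2 * e1 + κ * d) := by gcongr
    _ ≤ 5 / 2 * η * d := by nlinarith

/-- T1 -/
theorem Coi.t1 (q : Coi G G1 d b ρ κ K M O Z) (c : Ctx G G1 d f b ρ κ η C K M)
    (s t : Bool) (v : V) :
    |∑ w ∈ sdc O Z s v, aa M ρ t w / cty d b ρ κ K w| ≤ 15 * η := by
  have hd := c.dpos
  have hη := c.η0
  rw [← sum_inter_add_sum_sdiff (sdc O Z s v) K]
  have h1 : ∑ w ∈ sdc O Z s v ∩ K, aa M ρ t w / cty d b ρ κ K w =
      (∑ w ∈ sdc O Z s v ∩ K, aa M ρ t w) / ((1 - b - (1 - ρ) * κ) * d / 2) := by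
    rw [sum_div]
    apply sum_congr rfl
    intro w hw
    rw [mem_inter] at hw
    unfold cty
    rw [if_pos hw.2]
  have h2 : ∑ w ∈ sdc O Z s v \ K, aa M ρ t w / cty d b ρ κ K w =
      (∑ w ∈ sdc O Z s v \ K, aa M ρ t w) / ((1 - (1 - ρ) * κ) * d / 2) := by
    rw [sum_div]
    apply sum_congr rfl
    intro w hw
    rw [Finset.mem_sdiff] at hw
    unfold cty
    rw [if_neg hw.2]
  rw [h1, h2]
  have a1 := q.aK c s t v
  have a2 := q.aO c s t v
  have hb := c.b1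
  have hb0 := c.b0
  have hk := c.kη
  have hk0 := c.k0
  have hηs := c.ηs
  have hρ := c.ρ0
  have hρ1 := c.ρ1
  have hk1 : (1 - ρ) * κ ≤ 1 / 100 := by nlinarith
  have c1 : 2 / 5 * (d : ℝ) ≤ (1 - b - (1 - ρ) * κ) * d / 2 := by nlinarith
  have c2 : 2 / 5 * (d : ℝ) ≤ (1 - (1 - ρ) * κ) * d / 2 := by nlinarith
  have key : ∀ x y : ℝ, |x| ≤ 5 / 2 * η * d → 2 / 5 * (d : ℝ) ≤ y → |x / y| ≤ 7 * η := by
    intro x y hx hy
    have hy0 : 0 < y := by nlinarith
    rw [abs_div, abs_of_pos hy0, div_le_iff₀ hy0]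
    calc |x| ≤ 5 / 2 * η * d := hx
      _ ≤ 7 * η * (2 / 5 * d) := by nlinarith [mul_pos hη hd]
      _ ≤ 7 * η * y := by gcongr
  calc _ ≤ _ + _ := abs_add_le _ _
    _ ≤ 7 * η + 7 * η := add_le_add (key _ _ a1 c1) (key _ _ a2 c2)
    _ ≤ 15 * η := by linarith

theorem inv_diff (x y A B e : ℝ) (hA : 0 < A) (hB : 0 < B) (hx : A ≤ x) (hy : B ≤ y)
    (h : |x - y| ≤ e) : |1 / x - 1 / y| ≤ e / (A * B) := by
  have hx0 : 0 < x := lt_of_lt_of_le hA hx
  have hy0 : 0 < y := lt_of_lt_of_le hB hy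
  have e1 : 1 / x - 1 / y = -(x - y) / (x * y) := by
    field_simp
    ring
  have he : 0 ≤ e := le_trans (abs_nonneg _) h
  rw [e1, abs_div, abs_neg, abs_of_pos (by positivity : 0 < x * y)]
  calc |x - y| / (x * y) ≤ e / (x * y) := by gcongr
    _ ≤ e / (A * B) := by
        apply div_le_div_of_nonneg_left he (by positivity)
        gcongr

omit [Fintype V] in
theorem aa_le (M : Bool → Finset V) (ρ : ℝ) (hρ0 : 0 < ρ) (hρ1 : ρ ≤ 1 / 16) (s : Bool) (w : V) :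
    |aa M ρ s w| ≤ 1 / 2 := by
  unfold aa
  rw [abs_le]
  split_ifs <;> constructor <;> linarith

/-- T2 -/
theorem Coi.t2 (q : Coi G G1 d b ρ κ K M O Z) (c : Ctx G G1 d f b ρ κ η C K M)
    (s t : Bool) (v : V) :
    |∑ w ∈ sdc O Z s v, aa M ρ t w * (1 / nn O Z t w - 1 / cty d b ρ κ K w)| ≤
      4 * (2 + C) * η := by
  have hd := c.dpos
  have hη := c.η0
  have hC := c.C1
  have hs1 := c.s1
  have hd3 : (3 : ℝ) ≤ d := by exact_mod_cast c.d3
  have key : ∀ w, |aa M ρ t w * (1 / nn O Z t w - 1 / cty d b ρ κ K w)| ≤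
      4 * (2 + C) * η / d := by
    intro w
    have h1 := q.nn_lo c t w
    have h2 := c.cty_lo w
    have h3 : |nn O Z t w - cty d b ρ κ K w| ≤ (2 + C) * η * d := by
      calc _ ≤ _ + _ := abs_sub_le _ (ccf G G1 d b ρ κ K w) _
        _ ≤ √(d : ℝ) * Real.log d + (√(d : ℝ) * Real.log d + C * η) :=
            add_le_add (q.nn_cc t w) (c.cc_cty w)
        _ ≤ η * d + (η * d + C * η * d) := by
            have h8 : 0 ≤ C * η := by positivity
            have h9 : C * η * 1 ≤ C * η * d := mul_le_mul_of_nonneg_left (by linarith) h8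
            linarith
        _ = (2 + C) * η * d := by ring
    have h4 := inv_diff _ _ _ _ _ (by positivity) (by positivity) h1 h2 h3
    rw [abs_mul]
    calc |aa M ρ t w| * |1 / nn O Z t w - 1 / cty d b ρ κ K w|
        ≤ 1 / 2 * ((2 + C) * η * d / (1 / 3 * d * (2 / 5 * d))) := by
          gcongr
          exact aa_le M ρ c.ρ0 c.ρ1 t w
      _ = 15 / 4 * ((2 + C) * η) / d := by
          field_simp
          ring
      _ ≤ 4 * (2 + C) * η / d := by
          have : 0 ≤ (2 + C) * η := by positivity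
          apply div_le_div_of_nonneg_right _ hd.le
          linarith
  calc _ ≤ ∑ w ∈ sdc O Z s v, |aa M ρ t w * (1 / nn O Z t w - 1 / cty d b ρ κ K w)| :=
        abs_sum_le_sum_abs _ _
    _ ≤ ∑ w ∈ sdc O Z s v, 4 * (2 + C) * η / d := sum_le_sum fun w _ => key w
    _ = nn O Z s v * (4 * (2 + C) * η / d) := by rw [sum_const, nsmul_eq_mul]; rfl
    _ ≤ d * (4 * (2 + C) * η / d) := by
        have := q.nn_le c s v
        gcongr
    _ = 4 * (2 + C) * η := by field_simp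

/-- T3 -/
theorem Coi.t3 (q : Coi G G1 d b ρ κ K M O Z) (c : Ctx G G1 d f b ρ κ η C K M)
    (s t : Bool) (v : V) :
    |∑ w ∈ sdc O Z s v, ((f + ρ / 2) - mtot G1 (th G d b ρ κ K) (xx G d b ρ κ K) w) /
      nn O Z t w| ≤ 3 * C * η := by
  have hd := c.dpos
  have hη := c.η0
  have hC := c.C1
  have key : ∀ w, |((f + ρ / 2) - mtot G1 (th G d b ρ κ K) (xx G d b ρ κ K) w) /
      nn O Z t w| ≤ 3 * C * η / d := by
    intro w
    have h1 := q.nn_lo c t w
    have h2 := c.mtot_bd w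
    have h0 : 0 < nn O Z t w := by nlinarith
    rw [abs_div, abs_of_pos h0, abs_sub_comm, div_le_div_iff₀ h0 hd]
    calc _ ≤ C * η * d := by gcongr
      _ = 3 * C * η * (1 / 3 * d) := by ring
      _ ≤ 3 * C * η * nn O Z t w := by gcongr
  calc _ ≤ ∑ w ∈ sdc O Z s v, |((f + ρ / 2) - mtot G1 (th G d b ρ κ K) (xx G d b ρ κ K) w) /
      nn O Z t w| := abs_sum_le_sum_abs _ _
    _ ≤ ∑ w ∈ sdc O Z s v, 3 * C * η / d := sum_le_sum fun w _ => key w
    _ = nn O Z s v * (3 * C * η / d) := by rw [sum_const, nsmul_eq_mul]; rfl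
    _ ≤ d * (3 * C * η / d) := by
        have := q.nn_le c s v
        gcongr
    _ = 3 * C * η := by field_simp

/-- T5 -/
theorem Coi.t5 (q : Coi G G1 d b ρ κ K M O Z) (c : Ctx G G1 d f b ρ κ η C K M)
    (s t : Bool) (v : V) :
    |∑ w ∈ sdc O Z s v, (tot O Z (xx G d b ρ κ K) t w -
      mtot G1 (th G d b ρ κ K) (xx G d b ρ κ K) w) *
      (1 / nn O Z t w - 1 / ccf G G1 d b ρ κ K w)| ≤ 26 * η := by
  have hd := c.dpos
  have hη := c.η0
  have hk := c.k0
  have hl := c.lg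
  have key : ∀ w, |(tot O Z (xx G d b ρ κ K) t w -
      mtot G1 (th G d b ρ κ K) (xx G d b ρ κ K) w) *
      (1 / nn O Z t w - 1 / ccf G G1 d b ρ κ K w)| ≤ 26 * η / d := by
    intro w
    have h1 := q.nn_lo c t w
    have h2 := c.ccf_lo w
    have h3 := q.nn_cc t w
    have h4 := inv_diff _ _ _ _ _ (by positivity) (by positivity) h1 h2 h3
    have h5 := q.tot_bd c t w
    rw [abs_mul]
    have e1 : √(κ * d) * √(d : ℝ) = √κ * d := by
      rw [Real.sqrt_mul hk.le, mul_assoc, Real.mul_self_sqrt hd.le]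
    calc _ ≤ (3 * (√(κ * d) * Real.log d)) *
          (√(d : ℝ) * Real.log d / (1 / 3 * d * (7 / 20 * d))) := by gcongr
      _ = (√(κ * d) * √(d : ℝ)) * Real.log d ^ 2 * (180 / 7) / (d * d) := by
          field_simp
          ring
      _ = (√κ * Real.log d ^ 2) * (180 / 7) / d := by
          rw [e1]
          field_simp
      _ ≤ η * (180 / 7) / d := by
          have := c.s4
          gcongr
      _ ≤ 26 * η / d := by
          apply div_le_div_of_nonneg_right _ hd.le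
          linarith
  calc _ ≤ ∑ w ∈ sdc O Z s v, |(tot O Z (xx G d b ρ κ K) t w -
      mtot G1 (th G d b ρ κ K) (xx G d b ρ κ K) w) *
      (1 / nn O Z t w - 1 / ccf G G1 d b ρ κ K w)| := abs_sum_le_sum_abs _ _
    _ ≤ ∑ w ∈ sdc O Z s v, 26 * η / d := sum_le_sum fun w _ => key w
    _ = nn O Z s v * (26 * η / d) := by rw [sum_const, nsmul_eq_mul]; rfl
    _ ≤ d * (26 * η / d) := by
        have := q.nn_le c s v
        gcongr
    _ = 26 * η := by field_simp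

/-- the error after the first correction is small -/
theorem Coi.EE_bd (q : Coi G G1 d b ρ κ K M O Z) (c : Ctx G G1 d f b ρ κ η C K M)
    (s : Bool) (v : V) :
    |EE O Z (xx G d b ρ κ K) f M s v| ≤ (50 + 7 * C) * η := by
  have h1 := q.t1 c s (!s) v
  have h2 := q.t2 c s (!s) v
  have h3 := q.t3 c s (!s) v
  have h4 := (q.hC v).iii s
  have h5 := q.t5 c s (!s) v
  have h4' := le_trans h4 c.s4
  have hd := c.dpos
  have e : EE O Z (xx G d b ρ κ K) f M s v =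
      ∑ w ∈ sdc O Z s v, aa M ρ (!s) w / cty d b ρ κ K w +
      ∑ w ∈ sdc O Z s v, aa M ρ (!s) w * (1 / nn O Z (!s) w - 1 / cty d b ρ κ K w) +
      ∑ w ∈ sdc O Z s v, ((f + ρ / 2) - mtot G1 (th G d b ρ κ K) (xx G d b ρ κ K) w) /
        nn O Z (!s) w -
      ∑ w ∈ sdc O Z s v, (tot O Z (xx G d b ρ κ K) (!s) w -
        mtot G1 (th G d b ρ κ K) (xx G d b ρ κ K) w) / ccf G G1 d b ρ κ K w -
      ∑ w ∈ sdc O Z s v, (tot O Z (xx G d b ρ κ K) (!s) w -
        mtot G1 (th G d b ρ κ K) (xx G d b ρ κ K) w) *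
        (1 / nn O Z (!s) w - 1 / ccf G G1 d b ρ κ K w) := by
    rw [← sum_add_distrib, ← sum_add_distrib, ← sum_sub_distrib, ← sum_sub_distrib]
    apply sum_congr rfl
    intro w _
    unfold nu aa
    generalize mtot G1 (th G d b ρ κ K) (xx G d b ρ κ K) w = μ
    generalize tot O Z (xx G d b ρ κ K) (!s) w = T
    ring
  rw [e]
  have g1 := abs_le.mp h1
  have g2 := abs_le.mp h2
  have g3 := abs_le.mp h3
  have g4 := abs_le.mp h4'
  have g5 := abs_le.mp h5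
  rw [abs_le]
  have hη := c.η0
  constructor
  · linarith [g1.1, g2.1, g3.1, g4.2, g5.2]
  · linarith [g1.2, g2.2, g3.2, g4.1, g5.1]

end

end Pool.Agent.Work.MP_db9399_cg.helper83
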