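import Pool.Agent.Work.MP_db9399_cg_helper83.A5b
import Pool.Agent.Work.MP_db9399_as_helper75.FLOW

/-!
# MP_db9399, SPW, block A5 (helper83), part 3: the fractional flow
-/

set_option autoImplicit false

namespace Pool.Agent.Work.MP_db9399_cg.helper83

open Finset Classical Filter Topology
open Pool.Agent.Work.MP_db9399_all (nb)
open Pool.Agent.Work.MP_db9399_cg

universe u

section

variable {V : Type u} [Fintype V]

/-- the push -/
noncomputable def pp (O Z : V → V → Prop) (x1 : V → V → ℝ) (f : ℕ) (M : Bool → Finset V)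
    (s : Bool) (v : V) : ℝ :=
  - EE O Z x1 f M s v / ((sdc O Z s v ∩ M (!s)).card : ℝ)

/-- the value on an arc seen from the side `s` of `v` -/
noncomputable def yy (O Z : V → V → Prop) (x1 : V → V → ℝ) (f : ℕ) (M : Bool → Finset V)
    (s : Bool) (v w : V) : ℝ :=
  x1 v w + nu O Z x1 f M s v / nn O Z s v + nu O Z x1 f M (!s) w / nn O Z (!s) w +
  (if v ∉ M s ∧ w ∈ M (!s) then pp O Z x1 f M s v else 0) +
  (if w ∉ M (!s) ∧ v ∈ M s then pp O Z x1 f M (!s) w else 0)

variable {G G1 : SimpleGraph V} {d f : ℕ} {b ρ κ η C : ℝ}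
  {K : Finset V} {M : Bool → Finset V} {O Z : V → V → Prop}

theorem yy_symm (x1 : V → V → ℝ) (hx : ∀ v w, x1 v w = x1 w v) (s : Bool) (v w : V) :
    yy O Z x1 f M s v w = yy O Z x1 f M (!s) w v := by
  unfold yy
  rw [hx v w, Bool.not_not]
  ring

theorem Coi.cardM (q : Coi G G1 d b ρ κ K M O Z) (c : Ctx G G1 d f b ρ κ η C K M)
    (s t : Bool) (v : V) : ρ * d / 4 ≤ ((sdc O Z s v ∩ M t).card : ℝ) := by
  have hM : |((sdc O Z s v ∩ (M t \ K)).card : ℝ) - ((nb G1 v ∩ (M t \ K)).card : ℝ) / 2| ≤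
      √(d : ℝ) * Real.log d + κ * d := by
    cases t
    · exact q.sdcX c 6 s v
    · exact q.sdcX c 5 s v
  have hm : |((nb G1 v ∩ (M t \ K)).card : ℝ) - ρ * (1 - b) * d| ≤
      √(d : ℝ) * Real.log d := by
    have e : nb G1 v ∩ (M t \ K) = (nb G v ∩ M t) \ K := by
      ext w
      have h := congrArg (fun A => w ∈ A) (c.nbsd v)
      simp only [Finset.mem_sdiff, eq_iff_iff] at h
      simp only [mem_inter, Finset.mem_sdiff]
      tauto
    rw [e]
    exact c.lab.m2 t v
  have hle : ((sdc O Z s v ∩ (M t \ K)).card : ℝ) ≤ ((sdc O Z s v ∩ M t).card : ℝ) := by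
    exact_mod_cast card_le_card (inter_subset_inter_left sdiff_subset)
  have hs1 := c.s1
  have hkη := c.kη
  have hd := c.dpos
  have hkd : κ * d ≤ η * d := by gcongr
  have hρ0 := c.ρ0
  have hρ1 := c.ρ1
  have hb1 := c.b1
  have hC := c.C1
  have hη := c.η0
  have he1 := c.e1
  have h1 : η * 11000 ≤ ρ ^ 2 := by nlinarith
  have h2 : η ≤ ρ / 100000 := by nlinarith
  have h3 : η * d ≤ ρ / 100000 * d := by gcongr
  have h4 : ρ * (63 / 64) * d ≤ ρ * (1 - b) * d := by
    gcongr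
    linarith
  have g1 := (abs_le.mp hM).1
  have g2 := (abs_le.mp hm).1
  have : 0 < ρ * d := by positivity
  linarith

/-- the bound of the pushes -/
theorem Coi.pp_bd (q : Coi G G1 d b ρ κ K M O Z) (c : Ctx G G1 d f b ρ κ η C K M)
    (s : Bool) (v : V) : |pp O Z (xx G d b ρ κ K) f M s v| ≤ 28 / 1000 * ρ / d := by
  have h1 := q.cardM c s (!s) v
  have h2 := q.EE_bd c s v
  have hd := c.dpos
  have hρ0 := c.ρ0
  have hη := c.η0
  have he1 := c.e1
  have h0 : 0 < ((sdc O Z s v ∩ M (!s)).card : ℝ) := lt_of_lt_of_le (by positivity) h1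
  unfold pp
  rw [abs_div, abs_neg, abs_of_pos h0, div_le_div_iff₀ h0 hd]
  have h3 : (50 + 7 * C) * η ≤ 7 / 1000 * ρ ^ 2 := by nlinarith
  calc |EE O Z (xx G d b ρ κ K) f M s v| * d ≤ 7 / 1000 * ρ ^ 2 * d := by
        gcongr
        exact le_trans h2 h3
    _ = 28 / 1000 * ρ * (ρ * d / 4) := by ring
    _ ≤ 28 / 1000 * ρ * ((sdc O Z s v ∩ M (!s)).card : ℝ) := by gcongr

/-- the bound of the first correction -/
theorem Coi.nu_bd (q : Coi G G1 d b ρ κ K M O Z) (c : Ctx G G1 d f b ρ κ η C K M)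
    (s : Bool) (v : V) :
    |nu O Z (xx G d b ρ κ K) f M s v / nn O Z s v| ≤ 12 * η * κ := by
  have h1 := abs_le.mp (q.tot_bd c s v)
  have h2 := abs_le.mp (c.mtot_bd v)
  have h3 := q.nn_lo c s v
  have h4 := c.s2
  have h5 := c.Cη
  have h6 := c.s5
  have hd := c.dpos
  have hρ0 := c.ρ0
  have hρ1 := c.ρ1
  have hη := c.η0
  have hk := c.k0
  have h0 : 0 < nn O Z s v := by nlinarith
  rw [abs_div, abs_of_pos h0, div_le_iff₀ h0]
  have h7 : |nu O Z (xx G d b ρ κ K) f M s v| ≤ 1 + 3 * (η * (κ * d)) := by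
    unfold nu
    rw [abs_le]
    constructor
    · split_ifs <;> linarith [h1.2, h2.2]
    · split_ifs <;> linarith [h1.1, h2.1]
  calc _ ≤ 1 + 3 * (η * (κ * d)) := h7
    _ ≤ 12 * η * κ * (1 / 3 * d) := by nlinarith
    _ ≤ 12 * η * κ * nn O Z s v := by gcongr

theorem Coi.yy_bd (q : Coi G G1 d b ρ κ K M O Z) (c : Ctx G G1 d f b ρ κ η C K M)
    (s : Bool) (v w : V) :
    0 ≤ yy O Z (xx G d b ρ κ K) f M s v w ∧ yy O Z (xx G d b ρ κ K) f M s v w ≤ 1 := by
  have h1 := abs_le.mp (q.nu_bd c s v)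
  have h2 := abs_le.mp (q.nu_bd c (!s) w)
  have h3 := abs_le.mp (q.pp_bd c s v)
  have h4 := abs_le.mp (q.pp_bd c (!s) w)
  have hx := c.xx_lo v w
  have hx' := c.xx_hi v w
  have hd := c.dpos
  have hρ0 := c.ρ0
  have hρ1 := c.ρ1
  have hη := c.η0
  have hηs := c.ηs
  have hk := c.k0
  have hkη := c.kη
  have hC := c.C1
  have he1 := c.e1
  have h6 := c.s5
  have h7 : 28 / 1000 * ρ / d ≤ η * κ := by
    rw [div_le_iff₀ hd]
    nlinarith
  have h8 : 25 * (η * κ) ≤ 1 / 4 * ρ * κ := by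
    have h9 : η * 11000 ≤ ρ ^ 2 := by nlinarith
    have h10 : 25 * η ≤ 1 / 4 * ρ := by nlinarith
    nlinarith
  have h8' : 0 ≤ ρ * κ := by positivity
  have hpos : 0 ≤ η * κ := by positivity
  have hηκ : η * κ ≤ 1 / 1000000 := by nlinarith
  unfold yy
  have ha : |(if v ∉ M s ∧ w ∈ M (!s) then pp O Z (xx G d b ρ κ K) f M s v else 0) +
      (if w ∉ M (!s) ∧ v ∈ M s then pp O Z (xx G d b ρ κ K) f M (!s) w else 0)| ≤ η * κ := by
    by_cases hv : v ∈ M s
    · rw [if_neg (by tauto), zero_add]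
      split_ifs
      · exact le_trans (abs_le.mpr h4) h7
      · simpa using hpos
    · rw [if_neg (c := w ∉ M (!s) ∧ v ∈ M s) (by tauto), add_zero]
      split_ifs
      · exact le_trans (abs_le.mpr h3) h7
      · simpa using hpos
  have ha' := abs_le.mp ha
  constructor
  · nlinarith [ha'.1, h1.1, h2.1]
  · nlinarith [ha'.2, h1.2, h2.2]

/-- sum over the side: general -/
theorem Coi.sum_yy (q : Coi G G1 d b ρ κ K M O Z) (c : Ctx G G1 d f b ρ κ η C K M)
    (s : Bool) (v : V) :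
    ((sdz O Z s v).card : ℝ) + ∑ w ∈ sdc O Z s v, yy O Z (xx G d b ρ κ K) f M s v w =
      f + (if v ∈ M s then 1 / 2 else 0) + EE O Z (xx G d b ρ κ K) f M s v +
      ∑ w ∈ sdc O Z s v, (if v ∉ M s ∧ w ∈ M (!s) then pp O Z (xx G d b ρ κ K) f M s v else 0) +
      ∑ w ∈ sdc O Z s v,
        (if w ∉ M (!s) ∧ v ∈ M s then pp O Z (xx G d b ρ κ K) f M (!s) w else 0) := by
  have h3 := q.nn_lo c s v
  have hd := c.dpos
  have h0 : nn O Z s v ≠ 0 := by
    have : 0 < nn O Z s v := by nlinarith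
    exact this.ne'
  unfold yy
  rw [sum_add_distrib, sum_add_distrib, sum_add_distrib, sum_add_distrib, sum_const,
    nsmul_eq_mul]
  have e1 : ((sdc O Z s v).card : ℝ) * (nu O Z (xx G d b ρ κ K) f M s v / nn O Z s v) =
      nu O Z (xx G d b ρ κ K) f M s v := by
    have : ((sdc O Z s v).card : ℝ) = nn O Z s v := rfl
    rw [this]
    field_simp
  rw [e1]
  have e2 : nu O Z (xx G d b ρ κ K) f M s v = f + (if v ∈ M s then 1 / 2 else 0) -
      (((sdz O Z s v).card : ℝ) + ∑ w ∈ sdc O Z s v, xx G d b ρ κ K v w) := rfl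
  rw [e2]
  unfold EE
  ring

theorem Coi.exact0 (q : Coi G G1 d b ρ κ K M O Z) (c : Ctx G G1 d f b ρ κ η C K M)
    (s : Bool) (v : V) (hv : v ∉ M s) :
    ((sdz O Z s v).card : ℝ) + ∑ w ∈ sdc O Z s v, yy O Z (xx G d b ρ κ K) f M s v w = f := by
  rw [q.sum_yy c s v, if_neg hv]
  have h1 := q.cardM c s (!s) v
  have hd := c.dpos
  have hρ0 := c.ρ0
  have h0 : 0 < ((sdc O Z s v ∩ M (!s)).card : ℝ) := lt_of_lt_of_le (by positivity) h1
  have e1 : ∑ w ∈ sdc O Z s v,
      (if v ∉ M s ∧ w ∈ M (!s) then pp O Z (xx G d b ρ κ K) f M s v else 0) =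
      - EE O Z (xx G d b ρ κ K) f M s v := by
    have : ∀ w, (v ∉ M s ∧ w ∈ M (!s)) ↔ w ∈ M (!s) := fun w => by tauto
    simp_rw [this]
    rw [← sum_filter, filter_mem_eq_inter, sum_const, nsmul_eq_mul]
    unfold pp
    field_simp
  have e2 : ∑ w ∈ sdc O Z s v,
      (if w ∉ M (!s) ∧ v ∈ M s then pp O Z (xx G d b ρ κ K) f M (!s) w else 0) = 0 := by
    apply sum_eq_zero
    intro w _
    rw [if_neg (by tauto)]
  rw [e1, e2]
  ring

theorem Coi.exact1 (q : Coi G G1 d b ρ κ K M O Z) (c : Ctx G G1 d f b ρ κ η C K M)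
    (s : Bool) (v : V) (hv : v ∈ M s) :
    (f : ℝ) ≤ ((sdz O Z s v).card : ℝ) + ∑ w ∈ sdc O Z s v, yy O Z (xx G d b ρ κ K) f M s v w ∧
    ((sdz O Z s v).card : ℝ) + ∑ w ∈ sdc O Z s v, yy O Z (xx G d b ρ κ K) f M s v w ≤ f + 1 := by
  rw [q.sum_yy c s v, if_pos hv]
  have hd := c.dpos
  have hρ0 := c.ρ0
  have hρ1 := c.ρ1
  have hη := c.η0
  have he1 := c.e1
  have hE := abs_le.mp (q.EE_bd c s v)
  have h3 : (50 + 7 * C) * η ≤ 7 / 1000 * ρ ^ 2 := by nlinarith
  have h3' : ρ ^ 2 ≤ 1 := by nlinarith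
  have e1 : ∑ w ∈ sdc O Z s v,
      (if v ∉ M s ∧ w ∈ M (!s) then pp O Z (xx G d b ρ κ K) f M s v else 0) = 0 := by
    apply sum_eq_zero
    intro w _
    rw [if_neg (by tauto)]
  have e2 : |∑ w ∈ sdc O Z s v,
      (if w ∉ M (!s) ∧ v ∈ M s then pp O Z (xx G d b ρ κ K) f M (!s) w else 0)| ≤
      28 / 1000 * ρ := by
    calc _ ≤ ∑ w ∈ sdc O Z s v,
          |if w ∉ M (!s) ∧ v ∈ M s then pp O Z (xx G d b ρ κ K) f M (!s) w else 0| :=
          abs_sum_le_sum_abs _ _
      _ ≤ ∑ w ∈ sdc O Z s v, 28 / 1000 * ρ / d := by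
          apply sum_le_sum
          intro w _
          split_ifs
          · exact q.pp_bd c (!s) w
          · rw [abs_zero]; positivity
      _ = nn O Z s v * (28 / 1000 * ρ / d) := by rw [sum_const, nsmul_eq_mul]; rfl
      _ ≤ d * (28 / 1000 * ρ / d) := by
          have := q.nn_le c s v
          gcongr
      _ = 28 / 1000 * ρ := by field_simp
  have e2' := abs_le.mp e2
  rw [e1]
  constructor <;> linarith [hE.1, hE.2, e2'.1, e2'.2]

theorem card_out (v : V) :
    (((univ.filter fun p : V × V => O p.1 p.2 ∧ Z p.1 p.2).filter fun p => p.1 = v).card : ℝ) =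
      ((sdz O Z true v).card : ℝ) := by
  congr 1
  refine card_bij (fun p _ => p.2) ?_ ?_ ?_
  · intro p hp
    simp only [mem_filter, mem_univ, true_and] at hp
    obtain ⟨h, h2⟩ := hp
    subst h2
    simp only [sdz, sd, mem_filter, mem_univ, true_and, if_true]
    exact h
  · intro p hp p' hp' h
    simp only [mem_filter, mem_univ, true_and] at hp hp'
    exact Prod.ext (hp.2.trans hp'.2.symm) h
  · intro w hw
    simp only [sdz, sd, mem_filter, mem_univ, true_and, if_true] at hw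
    exact ⟨(v, w), by simp only [mem_filter, mem_univ, true_and]; exact ⟨hw, trivial⟩, rfl⟩

theorem Coi.card_in (q : Coi G G1 d b ρ κ K M O Z) (v : V) :
    (((univ.filter fun p : V × V => O p.1 p.2 ∧ Z p.1 p.2).filter fun p => p.2 = v).card : ℝ) =
      ((sdz O Z false v).card : ℝ) := by
  congr 1
  refine card_bij (fun p _ => p.1) ?_ ?_ ?_
  · intro p hp
    simp only [mem_filter, mem_univ, true_and] at hp
    obtain ⟨h, h2⟩ := hp
    subst h2
    simp only [sdz, sd, mem_filter, mem_univ, true_and]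
    exact ⟨by simpa using h.1, q.hZ _ _ h.2⟩
  · intro p hp p' hp' h
    simp only [mem_filter, mem_univ, true_and] at hp hp'
    exact Prod.ext h (hp.2.trans hp'.2.symm)
  · intro w hw
    simp only [sdz, sd, mem_filter, mem_univ, true_and] at hw
    exact ⟨(w, v), by
      simp only [mem_filter, mem_univ, true_and]
      exact ⟨⟨by simpa using hw.1, q.hZ _ _ hw.2⟩, trivial⟩, rfl⟩

theorem Coi.mem_sdc_swap (q : Coi G G1 d b ρ κ K M O Z) (u v : V) :
    v ∈ sdc O Z true u ↔ u ∈ sdc O Z false v := by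
  simp only [sdc, sd, mem_filter, mem_univ, true_and, if_true]
  constructor
  · intro h
    exact ⟨by simpa using h.1, fun hz => h.2 (q.hZ _ _ hz)⟩
  · intro h
    exact ⟨by simpa using h.1, fun hz => h.2 (q.hZ _ _ hz)⟩

theorem Coi.sum_in (q : Coi G G1 d b ρ κ K M O Z) (v : V) :
    ∑ u, (if v ∈ sdc O Z true u then yy O Z (xx G d b ρ κ K) f M true u v else 0) =
      ∑ u ∈ sdc O Z false v, yy O Z (xx G d b ρ κ K) f M false v u := by
  rw [← sum_filter]
  have : (univ.filter fun u => v ∈ sdc O Z true u) = sdc O Z false v := by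
    ext u
    rw [mem_filter]
    simp only [mem_univ, true_and]
    exact q.mem_sdc_swap u v
  rw [this]
  apply sum_congr rfl
  intro u _
  rw [yy_symm _ (xx_symm G d b ρ κ K)]
  rfl

theorem sum_out (g : V → ℝ) (v : V) :
    ∑ w, (if w ∈ sdc O Z true v then g w else 0) = ∑ w ∈ sdc O Z true v, g w := by
  rw [← sum_filter, filter_mem_eq_inter, univ_inter]

/-- the flow is rounded -/
theorem Coi.round (q : Coi G G1 d b ρ κ K M O Z) (c : Ctx G G1 d f b ρ κ η C K M) :
    ∃ S : SimpleGraph V, S ≤ G1 ∧ (∀ v w, Z v w → S.Adj v w) ∧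
      (∀ v, v ∉ M true → v ∉ M false → (nb S v).card = 2 * f) ∧
      ∀ v, (nb S v).card = 2 * f ∨ (nb S v).card = 2 * f + 1 := by
  have hD : ∀ u v, O u v → G1.Adj u v ∧ ¬ O v u := fun u v h =>
    ⟨q.hO' u v h, (q.hO u v (q.hO' u v h)).mp h⟩
  obtain ⟨S, h1, h2, _, h4, h5⟩ := Pool.Agent.Work.MP_db9399_as_helper75.exact_graph G1 O hD
    (univ.filter fun p : V × V => O p.1 p.2 ∧ Z p.1 p.2)
    (univ.filter fun p : V × V => O p.1 p.2 ∧ ¬ Z p.1 p.2)
    (by intro p hp; simp only [mem_filter, mem_univ, true_and] at hp; exact hp.1)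
    (by intro p hp; simp only [mem_filter, mem_univ, true_and] at hp; exact hp.1)
    (by
      rw [Finset.disjoint_left]
      intro p hp hp'
      simp only [mem_filter, mem_univ, true_and] at hp hp'
      exact hp'.2 hp.2)
    (fun v w => if w ∈ sdc O Z true v then yy O Z (xx G d b ρ κ K) f M true v w else 0)
    (by
      intro v w
      split_ifs
      · exact q.yy_bd c true v w
      · constructor <;> norm_num)
    (by
      intro v w hvw
      rw [if_neg]
      intro hw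
      apply hvw
      simp only [sdc, sd, mem_filter, mem_univ, true_and, if_true] at hw
      simp only [mem_filter, mem_univ, true_and]
      exact hw)
    (fun _ => f) (fun _ => f) (M true) (M false) c.lab.dis
    (by
      intro v hv
      rw [card_out, sum_out]
      exact q.exact0 c true v hv)
    (by
      intro v hv
      rw [card_out, sum_out]
      exact q.exact1 c true v hv)
    (by
      intro v hv
      rw [q.card_in, q.sum_in]
      exact q.exact0 c false v hv)
    (by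
      intro v hv
      rw [q.card_in, q.sum_in]
      exact q.exact1 c false v hv)
  refine ⟨S, h1, ?_, ?_, ?_⟩
  · intro v w hvw
    by_cases ho : O v w
    · exact h2 (v, w) (by simp only [mem_filter, mem_univ, true_and]; exact ⟨ho, hvw⟩)
    · have ho' : O w v := by
        by_contra hcon
        exact ho ((q.hO v w (q.hZ' v w hvw)).mpr hcon)
      exact (h2 (w, v) (by
        simp only [mem_filter, mem_univ, true_and]; exact ⟨ho', q.hZ v w hvw⟩)).symm
  · intro v hv hv'
    rw [h4 v hv hv']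
    ring
  · intro v
    rcases h5 v with h | h
    · left; rw [h]; ring
    · right; rw [h]; ring

end

end Pool.Agent.Work.MP_db9399_cg.helper83
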